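import Mathlib

/-!
# Hyperelliptic curves with admissible blocks of Weierstrass points
-/

open Polynomial

namespace Pool.Agent.Lib.MP_ca2859_nt.CC

/-- `b` divides `2g`, or `b` divides `2g + 2` and `b ≤ g + 1` -/
def Dv (g b : ℕ) : Prop := b ∣ 2 * g ∨ (b ∣ 2 * g + 2 ∧ b ≤ g + 1)

/-- The block sizes `m i` are `g`-admissible: any two blocks belong to a set `J` of blocks with
`2g + 2` elements in total, or to a set `J` such that, for some block `l ∈ J` with two elements, the
number `b` of elements of the other blocks of `J` divides `2g`, or divides `2g + 2` and is at most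
`g + 1`. -/
def AdmF (g : ℕ) {r : ℕ} (m : Fin r → ℕ) : Prop :=
  ∀ i j, ∃ J : Finset (Fin r), i ∈ J ∧ j ∈ J ∧
    (∑ x ∈ J, m x = 2 * g + 2 ∨ ∃ l ∈ J, m l = 2 ∧ Dv g (∑ x ∈ J.erase l, m x))

/-- The curve `y² = f(x)` of genus `h` has `g`-admissible blocks of Weierstrass points, each with at
least two elements: `f = ∏ F i` over `K` with `deg (F i) ≤ m i`, `∑ m i = 2h + 2`, `m i ≥ 2` and the
`m i` are `g`-admissible. (If `deg (F i) = m i - 1` the block contains the point at infinity.) -/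
def Blocks (g h : ℕ) {K : Type} [Field K] (f : K[X]) : Prop :=
  ∃ (r : ℕ) (m : Fin r → ℕ) (F : Fin r → K[X]), f = ∏ i, F i ∧
    (∀ i, 2 ≤ m i ∧ (F i).natDegree ≤ m i) ∧ ∑ i, m i = 2 * h + 2 ∧ AdmF g m

end Pool.Agent.Lib.MP_ca2859_nt.CC
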