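import Pool.Agent.Lib.MP_ca2859_nt.CC.Stm
import Pool.Agent.Lib.MP_ca2859_nt.GR.T1
import Pool.Agent.Lib.MP_ca2859_nt.CC.Blocks

/-!
# Fixed field theorem, cyclic covers: assembly from the pieces
-/

set_option autoImplicit false

open Polynomial WithZero IsDedekindDomain NumberField
open Pool.Agent.Lib.MP_ca2859_nt Pool.Agent.Lib.MP_ca2859_nt.GR

namespace Pool.Agent.Lib.MP_ca2859_nt.CC

theorem cF_pos (h : ℕ) (hh : 1 ≤ h) : 0 < FF.cF h := by
  have := cst_pos h hh
  unfold FF.cF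
  positivity

/-- finiteness of the support of `cnt` -/
theorem cnt_finite (K : Type) [Field K] [NumberField K] (c : ℕ) (hc : 0 < c) :
    {v : HeightOneSpectrum (𝓞 K) | cnt c v ≠ 0}.Finite := by
  have hx : ((c : ℕ) : K) ≠ 0 := by exact_mod_cast hc.ne'
  refine (finite_val_ne_one ((c : ℕ) : K) hx).subset fun v hv => ?_
  simp only [Set.mem_setOf_eq] at hv ⊢
  intro h1
  apply hv
  have h2 := ord_eq_cnt (K := K) c hc v
  rw [ord, h1, log_one, neg_zero] at h2
  exact_mod_cast h2.symm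

/-- the product for one set of roots -/
theorem PP_seen (K : Type) [Field K] [NumberField K] (g A : ℕ) (D : K[X])
    (hD : IsHyperelliptic g D) :
    {v : HeightOneSpectrum (𝓞 K) | A * (discExp g D v + cnt A.factorial v) ≠ 0}.Finite ∧
    GR.PP (fun v : HeightOneSpectrum (𝓞 K) => A * (discExp g D v + cnt A.factorial v)) ≤
      (DeltaC g D * A.factorial ^ Module.finrank ℚ K) ^ A := by
  classical
  have h1 := finite_bad g D hD
  have h2 := cnt_finite K A.factorial A.factorial_pos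
  have hfin : {v : HeightOneSpectrum (𝓞 K) | A * (discExp g D v + cnt A.factorial v) ≠ 0}.Finite := by
    refine (h1.union h2).subset fun v hv => ?_
    simp only [Set.mem_setOf_eq] at hv
    by_contra hcon
    simp only [Set.mem_union, Set.mem_setOf_eq, not_or, not_not] at hcon
    apply hv
    rw [hcon.1, hcon.2, add_zero, mul_zero]
  refine ⟨hfin, ?_⟩
  set T := (h1.union h2).toFinset with hT
  have hT1 : ∀ v : HeightOneSpectrum (𝓞 K), discExp g D v ≠ 0 → v ∈ T := by
    intro v hv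
    rw [hT, Set.Finite.mem_toFinset]
    exact Or.inl hv
  have hT2 : ∀ v : HeightOneSpectrum (𝓞 K),
      A * (discExp g D v + cnt A.factorial v) ≠ 0 → v ∈ T := by
    intro v hv
    rw [hT, Set.Finite.mem_toFinset]
    by_contra hcon
    simp only [Set.mem_union, Set.mem_setOf_eq, not_or, not_not] at hcon
    apply hv
    rw [hcon.1, hcon.2, add_zero, mul_zero]
  rw [GR.PP_eq _ T hT2]
  have h3 : ∀ v ∈ T, Ideal.absNorm v.asIdeal ^ (A * (discExp g D v + cnt A.factorial v)) =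
      (Ideal.absNorm v.asIdeal ^ discExp g D v * Ideal.absNorm v.asIdeal ^ cnt A.factorial v) ^ A := by
    intro v _
    rw [← pow_add, ← pow_mul, mul_comm]
  rw [Finset.prod_congr rfl h3, Finset.prod_pow, Finset.prod_mul_distrib]
  refine Nat.pow_le_pow_left (Nat.mul_le_mul ?_ (prod_cnt_le _ A.factorial_pos T)) A
  rw [DeltaC_eq_PP, GR.PP_eq _ T hT1]

theorem arith_F (a cF A₀ E n dd mc dc' dc mD A : ℕ) (hdd : 1 ≤ dd) (hmc : 1 ≤ mc)
    (hdc' : 1 ≤ dc') (hn : 1 ≤ n) (hA : A = a + cF * A₀.factorial ^ (A₀ * E) + A₀ * E + A₀ + 1)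
    (hmD : mD ≤ (A₀ ^ n * dd * mc) ^ A₀)
    (hdc : dc ≤ mc ^ a * cF ^ n * (((dc' * A₀.factorial ^ n) ^ A₀) ^ E)) :
    mD ≤ (A ^ n * dd * mc) ^ A ∧ dc ≤ (A ^ n * dd * mc * dc') ^ A := by
  have hA1 : 1 ≤ A := by rw [hA]; omega
  have hAn : 1 ≤ A ^ n := Nat.one_le_pow _ _ hA1
  have hA0 : A₀ ≤ A := by rw [hA]; omega
  have hX : 1 ≤ A ^ n * dd * mc := Nat.mul_pos (Nat.mul_pos hAn hdd) hmc
  refine ⟨?_, ?_⟩
  · refine hmD.trans ((Nat.pow_le_pow_left ?_ A₀).trans (Nat.pow_le_pow_right hX hA0))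
    exact Nat.mul_le_mul_right _ (Nat.mul_le_mul_right _ (Nat.pow_le_pow_left hA0 n))
  · have e1 : mc ^ a * cF ^ n * (((dc' * A₀.factorial ^ n) ^ A₀) ^ E) =
        mc ^ a * (cF * A₀.factorial ^ (A₀ * E)) ^ n * dc' ^ (A₀ * E) := by
      rw [← pow_mul, mul_pow dc', ← pow_mul, mul_pow cF, ← pow_mul, mul_comm n (A₀ * E)]
      ring
    rw [e1] at hdc
    have h1 : mc ^ a ≤ mc ^ A := Nat.pow_le_pow_right hmc (by rw [hA]; omega)
    have h2 : (cF * A₀.factorial ^ (A₀ * E)) ^ n ≤ (A ^ n) ^ A := by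
      refine (Nat.pow_le_pow_left (m := A) (by rw [hA]; omega) n).trans ?_
      exact Nat.le_self_pow (by omega) _
    have h3 : dc' ^ (A₀ * E) ≤ dc' ^ A := Nat.pow_le_pow_right hdc' (by rw [hA]; omega)
    have h4 : 1 ≤ dd ^ A := Nat.one_le_pow _ _ hdd
    calc dc ≤ mc ^ a * (cF * A₀.factorial ^ (A₀ * E)) ^ n * dc' ^ (A₀ * E) := hdc
      _ ≤ mc ^ A * (A ^ n) ^ A * dc' ^ A := Nat.mul_le_mul (Nat.mul_le_mul h1 h2) h3
      _ ≤ dd ^ A * (mc ^ A * (A ^ n) ^ A * dc' ^ A) := Nat.le_mul_of_pos_left _ h4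
      _ = (A ^ n * dd * mc * dc') ^ A := by rw [mul_pow, mul_pow, mul_pow]; ring

/-- seen sets of roots, with a constant depending only on the block sizes -/
theorem exists_const (hPAIR : S_PAIR) (hDIRE : S_DIRE) (g h r : ℕ) (m : Fin r → ℕ) (hg : 1 ≤ g)
    (hh : 1 ≤ h) (hm : ∀ i, 2 ≤ m i) (J : Finset (Fin r))
    (hJ : ∑ x ∈ J, m x = 2 * g + 2 ∨ ∃ l ∈ J, m l = 2 ∧ Dv g (∑ x ∈ J.erase l, m x)) :
    ∃ A : ℕ, ∀ (K : Type) [Field K] [NumberField K] (L : Type) [Field L] [NumberField L]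
      [Algebra K L] (f : K[X]) (a : L) (α : Fin (2 * h + 2) → L), IsHyperelliptic h f → a ≠ 0 →
      Function.Injective α → f.map (algebraMap K L) = C a * ∏ j, (X - C (α j)) →
      ∀ β : Fin (2 * h + 2) → Fin r, (∀ i, (Finset.univ.filter fun x => β x = i).card = m i ∧
        ∃ q : K[X], q.map (algebraMap K L) =
          ∏ j ∈ Finset.univ.filter (fun x => β x = i), (X - C (α j))) →
      Seen g h A f α (Finset.univ.filter fun x => β x ∈ J) := by
  classical
  -- products over sets of blocks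
  have key : ∀ (K : Type) [Field K] [NumberField K] (L : Type) [Field L] [NumberField L]
      [Algebra K L] (α : Fin (2 * h + 2) → L) (β : Fin (2 * h + 2) → Fin r),
      (∀ i, (Finset.univ.filter fun x => β x = i).card = m i ∧
        ∃ q : K[X], q.map (algebraMap K L) =
          ∏ j ∈ Finset.univ.filter (fun x => β x = i), (X - C (α j))) →
      ∀ J : Finset (Fin r), (Finset.univ.filter fun x => β x ∈ J).card = ∑ x ∈ J, m x ∧
        ∃ q : K[X], q.map (algebraMap K L) =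
          ∏ j ∈ Finset.univ.filter (fun x => β x ∈ J), (X - C (α j)) := by
    intro K _ _ L _ _ _ α β hβ J
    have hmaps : ∀ x ∈ Finset.univ.filter (fun x => β x ∈ J), β x ∈ J := fun x hx => by
      simpa using hx
    have hfib : ∀ i ∈ J, (Finset.univ.filter (fun x => β x ∈ J)).filter (fun x => β x = i) =
        Finset.univ.filter (fun x => β x = i) := by
      intro i hi
      ext x
      simp only [Finset.mem_filter, Finset.mem_univ, true_and]
      constructor
      · exact fun h => h.2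
      · exact fun h => ⟨by rw [h]; exact hi, h⟩
    refine ⟨?_, ?_⟩
    · rw [Finset.card_eq_sum_card_fiberwise hmaps]
      refine Finset.sum_congr rfl fun i hi => ?_
      rw [hfib i hi, (hβ i).1]
    · choose hc q hq using hβ
      refine ⟨∏ i ∈ J, q i, ?_⟩
      rw [Polynomial.map_prod, ← Finset.prod_fiberwise_of_maps_to hmaps]
      refine Finset.prod_congr rfl fun i hi => ?_
      rw [hfib i hi, hq i]
  rcases hJ with hJ | ⟨l, hl, hml, hdv⟩
  · obtain ⟨A, hA⟩ := hDIRE g h hg hh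
    refine ⟨A, fun K _ _ L _ _ _ f a α hf ha hα hfα β hβ => ?_⟩
    obtain ⟨h1, q, hq⟩ := key K L α β hβ J
    exact hA K L f a α hf ha hα hfα _ q (h1.trans hJ) hq
  · have hb : 1 ≤ ∑ x ∈ J.erase l, m x := by
      rcases Nat.eq_zero_or_pos (∑ x ∈ J.erase l, m x) with h0 | h0
      · exfalso
        rw [h0] at hdv
        rcases hdv with h1 | ⟨h1, -⟩
        · rw [Nat.zero_dvd] at h1; omega
        · rw [Nat.zero_dvd] at h1; omega
      · exact h0
    obtain ⟨A, hA⟩ := hPAIR g h _ hg hh hb hdv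
    refine ⟨A, fun K _ _ L _ _ _ f a α hf ha hα hfα β hβ => ?_⟩
    obtain ⟨h1, q₁, hq₁⟩ := key K L α β hβ {l}
    obtain ⟨h2, q₂, hq₂⟩ := key K L α β hβ (J.erase l)
    rw [Finset.sum_singleton, hml] at h1
    have hU : (Finset.univ.filter fun x => β x ∈ J) =
        (Finset.univ.filter fun x => β x ∈ ({l} : Finset (Fin r))) ∪
          (Finset.univ.filter fun x => β x ∈ J.erase l) := by
      ext x
      simp only [Finset.mem_filter, Finset.mem_univ, true_and, Finset.mem_union,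
        Finset.mem_singleton, Finset.mem_erase]
      constructor
      · intro h
        by_cases h' : β x = l
        · exact Or.inl h'
        · exact Or.inr ⟨h', h⟩
      · rintro (h | h)
        · rw [h]; exact hl
        · exact h.2
    rw [hU]
    refine hA K L f a α hf ha hα hfα _ _ q₁ q₂ ?_ h1 h2 hq₁ hq₂
    rw [Finset.disjoint_left]
    intro x hx hx'
    simp only [Finset.mem_filter, Finset.mem_univ, true_and, Finset.mem_singleton,
      Finset.mem_erase] at hx hx'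
    exact hx'.1 hx

theorem main_even2 (hASML : FF.S_ASML) (hASMG : FF.S_ASMG) (hPAIR : S_PAIR) (hDIRE : S_DIRE)
    (hMONO : S_MONO) (hBLK : S_BLK) (hFACB : S_FACB) (g h r : ℕ) (m : Fin r → ℕ) (hg : 1 ≤ g)
    (hh : 1 ≤ h) (hm : ∀ i, 2 ≤ m i) (hsum : ∑ i, m i = 2 * h + 2) (hadm : AdmF g m) :
    ∃ A : ℕ, ∀ (K : Type) [Field K] [NumberField K] (F : Fin r → K[X]),
    (∀ i, (F i).natDegree = m i) → IsHyperelliptic h (∏ i, F i) →
    (∏ i, F i).natDegree = 2 * h + 2 →
    ∃ D : K[X], IsHyperelliptic g D ∧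
      MC g D ≤ (A ^ Module.finrank ℚ K * (discr K).natAbs * MC h (∏ i, F i)) ^ A ∧
      DeltaC h (∏ i, F i) ≤
        (A ^ Module.finrank ℚ K * (discr K).natAbs * MC h (∏ i, F i) * DeltaC g D) ^ A := by
  classical
  choose J hJi hJj hJ using hadm
  have hc := fun i j => exists_const hPAIR hDIRE g h r m hg hh hm (J i j) (hJ i j)
  choose c hc using hc
  set A₀ := ∑ i, ∑ j, c i j with hA₀
  have hcA : ∀ i j, c i j ≤ A₀ := by
    intro i j
    refine (Finset.single_le_sum (f := fun j => c i j) (fun _ _ => Nat.zero_le _)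
      (Finset.mem_univ j)).trans ?_
    exact Finset.single_le_sum (f := fun i => ∑ j, c i j) (fun _ _ => Nat.zero_le _)
      (Finset.mem_univ i)
  set E := 2 ^ (2 * h + 2) * FF.bF h with hE
  refine ⟨(2 * h + 1) * (h + 3) + FF.cF h * A₀.factorial ^ (A₀ * E) + A₀ * E + A₀ + 1,
    fun K _ _ F hF hf hfd => ?_⟩
  set f := ∏ i, F i with hfdef
  have hfin := finite_bad h f hf
  have hMC1 : 1 ≤ MC h f := by rw [MC_eq_PR]; exact PR_pos _ hfin
  have hn1 : 1 ≤ Module.finrank ℚ K := Module.finrank_pos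
  obtain ⟨a, α, π, hdata⟩ := exists_rootData (L := spl f) (2 * h + 2) f hfd (by omega) hf.1
    (IsSplittingField.splits (spl f) f)
  obtain ⟨β, hβ⟩ := hFACB K (spl f) (2 * h + 2) r m F hf.1 hF hsum a hdata.a0 α
    hdata.inj hdata.split
  set B : Finset (Fin r) → Finset (Fin (2 * h + 2)) := fun J =>
    Finset.univ.filter fun x => β x ∈ J with hB
  set 𝒯 : Finset (Finset (Fin (2 * h + 2))) :=
    (Finset.univ : Finset (Fin r × Fin r)).image fun p => B (J p.1 p.2) with h𝒯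
  have hmono : ∀ i j, (Finset.univ.filter fun x => β x = i) ∪
      (Finset.univ.filter fun x => β x = j) ⊆ B (J i j) := by
    intro i j x hx
    simp only [Finset.mem_union, Finset.mem_filter, Finset.mem_univ, true_and] at hx
    rw [hB]
    simp only [Finset.mem_filter, Finset.mem_univ, true_and]
    rcases hx with hx | hx
    · rw [hx]; exact hJi i j
    · rw [hx]; exact hJj i j
  have hsee : ∀ S : Finset (Fin (2 * h + 2)), 2 ≤ S.card → 2 ≤ Sᶜ.card →
      ∃ T ∈ 𝒯, 2 ≤ (T ∩ S).card ∧ 2 ≤ (T \ S).card := by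
    intro S h1 h2
    rcases Nat.lt_or_ge r 2 with hr | hr
    · -- one block
      have x0 : Fin (2 * h + 2) := ⟨0, by omega⟩
      have hsub : Subsingleton (Fin r) := by
        rw [Fin.subsingleton_iff_le_one]; omega
      have hall : B (J (β x0) (β x0)) = Finset.univ := by
        rw [hB]
        ext x
        simp only [Finset.mem_filter, Finset.mem_univ, true_and, iff_true]
        rw [Subsingleton.elim (β x) (β x0)]
        exact hJi _ _
      refine ⟨B (J (β x0) (β x0)), Finset.mem_image.2 ⟨(β x0, β x0), Finset.mem_univ _, rfl⟩, ?_, ?_⟩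
      · rw [hall, Finset.univ_inter]; exact h1
      · rw [hall, ← Finset.compl_eq_univ_sdiff]; exact h2
    · obtain ⟨i, j, hij, h3, h4⟩ := hBLK (2 * h + 2) r β hr
        (fun i => by rw [(hβ i).1]; exact hm i) S h1 h2
      refine ⟨B (J i j), Finset.mem_image.2 ⟨(i, j), Finset.mem_univ _, rfl⟩,
        h3.trans (Finset.card_le_card (Finset.inter_subset_inter_right (hmono i j))),
        h4.trans (Finset.card_le_card (Finset.sdiff_subset_sdiff (hmono i j) (le_refl _)))⟩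
  have hcur : ∀ T ∈ 𝒯, Seen g h A₀ f α T := by
    intro T hT
    rw [h𝒯, Finset.mem_image] at hT
    obtain ⟨⟨i, j⟩, -, rfl⟩ := hT
    exact hMONO g h (c i j) A₀ hg hh (hcA i j) K (spl f) f α _ hf
      (hc i j K (spl f) f a α hf hdata.a0 hdata.inj hdata.split β hβ)
  choose! D hD1 hD2 hD3 using hcur
  set d : Finset (Fin (2 * h + 2)) → HeightOneSpectrum (𝓞 K) → ℕ := fun T v =>
    A₀ * (discExp g (D T) v + cnt A₀.factorial v) with hd
  have hloc : ∀ v, discExp h f v ≠ 0 → (discExp h f v : ℤ) ≤ (2 * h + 1) * (h + 3) +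
      ord (v.valuation K) ((FF.cF h : ℕ) : K) + FF.bF h * ∑ T ∈ 𝒯, (d T v : ℤ) := by
    intro v _
    obtain ⟨w, hw⟩ := exists_place_above (K := K) (L := spl f) v
    refine hASML K (spl f) h hh f hf hfd v w hw a hdata.a0 α hdata.inj hdata.split 𝒯 hsee
      (fun T => d T v) (fun T hT i hi j hj k hk l hl hij hik hil hjk hjl hkl => ?_)
    have h1 := hD3 T hT v w hw i hi j hj k hk l hl hij hik hil hjk hjl hkl
    refine h1.trans ?_
    have h2nn : 0 ≤ ord (v.valuation K) (2 : K) := by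
      simpa using natCast_int_le (v.valuation K) 2
    have h3 : (0 : ℤ) ≤ (Ideal.ramificationIdx' v.asIdeal w.asIdeal : ℕ) := by positivity
    have h5 : ((d T v : ℕ) : ℤ) ≤ (d T v : ℤ) + (4 * h + 8) * ord (v.valuation K) (2 : K) := by
      have : (0 : ℤ) ≤ (4 * h + 8) * ord (v.valuation K) (2 : K) := by positivity
      linarith
    have := mul_le_mul_of_nonneg_left h5 h3
    simp only [hd] at this ⊢
    linarith
  have hglob := hASMG K h hh f hf (Finset (Fin (2 * h + 2))) 𝒯 d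
    (fun T hT => (PP_seen K g A₀ (D T) (hD1 T hT)).1) hloc
  have hne : 𝒯.Nonempty := by
    have h0 : (0 : Fin (2 * h + 2)) ≠ 1 := by
      intro h1
      have := congrArg Fin.val h1
      simp only [Fin.val_zero, Fin.val_one] at this
      omega
    obtain ⟨T, hT, -⟩ := hsee {0, 1} (by rw [Finset.card_pair h0]) (by
      rw [Finset.card_compl, Finset.card_pair h0, Fintype.card_fin]
      omega)
    exact ⟨T, hT⟩
  obtain ⟨T, hT, hmax⟩ := 𝒯.exists_max_image (fun T => DeltaC g (D T)) hne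
  have hDC : 1 ≤ DeltaC g (D T) := by
    rw [DeltaC_eq_PP]; exact GR.PP_pos _ (finite_bad g (D T) (hD1 T hT))
  have hX1 : 1 ≤ (DeltaC g (D T) * A₀.factorial ^ Module.finrank ℚ K) ^ A₀ :=
    Nat.one_le_pow _ _ (Nat.mul_pos hDC (Nat.one_le_pow _ _ A₀.factorial_pos))
  have hprod : (∏ T ∈ 𝒯, GR.PP (d T)) ^ FF.bF h ≤
      ((DeltaC g (D T) * A₀.factorial ^ Module.finrank ℚ K) ^ A₀) ^ E := by
    rw [hE, pow_mul]
    refine Nat.pow_le_pow_left ?_ _
    calc ∏ T ∈ 𝒯, GR.PP (d T)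
        ≤ ∏ _T ∈ 𝒯, (DeltaC g (D T) * A₀.factorial ^ Module.finrank ℚ K) ^ A₀ := by
          refine Finset.prod_le_prod' fun T' hT' => ?_
          refine (PP_seen K g A₀ (D T') (hD1 T' hT')).2.trans ?_
          exact Nat.pow_le_pow_left (Nat.mul_le_mul_right _ (hmax T' hT')) _
      _ = ((DeltaC g (D T) * A₀.factorial ^ Module.finrank ℚ K) ^ A₀) ^ 𝒯.card := by
          rw [Finset.prod_const]
      _ ≤ _ := by
        apply Nat.pow_le_pow_right hX1
        refine (Finset.card_le_univ _).trans ?_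
        rw [Fintype.card_finset, Fintype.card_fin]
  obtain ⟨r1, r2⟩ := arith_F ((2 * h + 1) * (h + 3)) (FF.cF h) A₀ E (Module.finrank ℚ K)
    (discr K).natAbs (MC h f) (DeltaC g (D T)) (DeltaC h f) (MC g (D T)) _ (one_le_discr K) hMC1
    hDC hn1 rfl (hD2 T hT) (hglob.trans (Nat.mul_le_mul_left _ hprod))
  exact ⟨D T, hD1 T hT, r1, r2⟩

theorem main_fin2 (hASML : FF.S_ASML) (hASMG : FF.S_ASMG) (hPAIR : S_PAIR) (hDIRE : S_DIRE)
    (hMONO : S_MONO) (hBLK : S_BLK) (hFACB : S_FACB) (hNRM : S_NRM) (g h r : ℕ) (m : Fin r → ℕ)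
    (hg : 1 ≤ g) (hh : 1 ≤ h) (hm : ∀ i, 2 ≤ m i) (hsum : ∑ i, m i = 2 * h + 2)
    (hadm : AdmF g m) :
    ∃ A : ℕ, ∀ (K : Type) [Field K] [NumberField K] (F : Fin r → K[X]),
    (∀ i, (F i).natDegree ≤ m i) → IsHyperelliptic h (∏ i, F i) →
    ∃ D : K[X], IsHyperelliptic g D ∧
      MC g D ≤ (A ^ Module.finrank ℚ K * (discr K).natAbs * MC h (∏ i, F i)) ^ A ∧
      DeltaC h (∏ i, F i) ≤
        (A ^ Module.finrank ℚ K * (discr K).natAbs * MC h (∏ i, F i) * DeltaC g D) ^ A := by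
  obtain ⟨A, hA⟩ := main_even2 hASML hASMG hPAIR hDIRE hMONO hBLK hFACB g h r m hg hh hm hsum hadm
  refine ⟨A, fun K _ _ F hF hf => ?_⟩
  obtain ⟨F', h1, h2, h3, h4, h5⟩ := hNRM K h r m F hh hf hF hsum
  obtain ⟨D, hD1, hD2, hD3⟩ := hA K F' h1 h2 h3
  rw [h4] at hD2 hD3
  rw [h5] at hD3
  exact ⟨D, hD1, hD2, hD3⟩

end Pool.Agent.Lib.MP_ca2859_nt.CC
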