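import Mathlib

/-!
# Curves whose Weierstrass points decompose into pairwise admissible stable sets
-/

set_option autoImplicit false

open Polynomial

namespace Pool.Agent.Lib.MP_ca2859_nt.CC

/-- Two sets of `a` and `b` Weierstrass points are `g`-admissible: `a + b = 2g + 2`, or one of the
two numbers is `2` and the other one divides `2g`, or divides `2g + 2` and is at most `g + 1`. -/
def Admissible (g a b : ℕ) : Prop :=
  a + b = 2 * g + 2 ∨ (a = 2 ∧ (b ∣ 2 * g ∨ (b ∣ 2 * g + 2 ∧ b ≤ g + 1))) ∨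
    (b = 2 ∧ (a ∣ 2 * g ∨ (a ∣ 2 * g + 2 ∧ a ≤ g + 1)))

/-- The Weierstrass points of the hyperelliptic curve `y² = f(x)` of genus `h` (the roots of `f`,
and infinity if `f` has degree `2h+1`) are the disjoint union of `r ≥ 2` Galois stable sets of
`m i ≥ 2` points, every two of them `g`-admissible: `f = F 1 ⋯ F r` with `deg (F i) ≤ m i`. -/
def Decomposes (g h : ℕ) {K : Type} [Field K] (f : K[X]) : Prop :=
  ∃ (r : ℕ) (m : Fin r → ℕ) (F : Fin r → K[X]), 2 ≤ r ∧ (∀ i, 2 ≤ m i) ∧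
    ∑ i, m i = 2 * h + 2 ∧ (∀ i j, i ≠ j → Admissible g (m i) (m j)) ∧
    (∀ i, (F i).natDegree ≤ m i) ∧ f = ∏ i, F i

end Pool.Agent.Lib.MP_ca2859_nt.CC
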