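import Mathlib
import Pool.Agent.Lib.MP_ca2859_nt.FF.Defs

/-!
# Cyclic covers of the line branched over a stable pair: definitions

`θ² = δ ∈ K`. The covering `t ↦ x`, `(x - θ)/(x + θ) = ((c + dθ)/(c - dθ))^k ((t - θ)/(t + θ))^(k+1)`
of degree `m = k + 1`, is defined over `K`: `x = P/Q` with
`P - θ Q = (c + dθ)^k (X - θ)^(k+1)`, `P, Q ∈ K[X]`.
-/

set_option autoImplicit false

open Polynomial WithZero IsDedekindDomain NumberField

namespace Pool.Agent.Lib.MP_ca2859_nt.CC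

section
variable {F : Type*} [Field F]

/-- `P - θ Q = (c + dθ)^k (X - θ)^(k+1)` for `θ² = δ` -/
noncomputable def PQ (δ c d : F) : ℕ → F[X] × F[X]
  | 0 => (X, 1)
  | k + 1 =>
    ((PQ δ c d k).1 * (C c * X - C (d * δ)) + C δ * (PQ δ c d k).2 * (C c - C d * X),
      (PQ δ c d k).1 * (C c - C d * X) + (PQ δ c d k).2 * (C c * X - C (d * δ)))

/-- the form of degree `n` of `G`, evaluated at `(P, Q)` -/
noncomputable def hom (n : ℕ) (G P Q : F[X]) : F[X] :=
  ∑ i ∈ Finset.range (n + 1), C (G.coeff i) * P ^ i * Q ^ (n - i)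

/-- right hand side of the covering curve: the preimages of the roots of `G` (`deg G = b`) under the
covering of degree `k + 1`, and, if `ε = 1`, the two branch points `± θ` -/
noncomputable def DD (b k ε : ℕ) (δ c d : F) (G : F[X]) : F[X] :=
  hom b G (PQ δ c d k).1 (PQ δ c d k).2 * (X ^ 2 - C δ) ^ ε

/-- index set of the branch points of the covering curve -/
abbrev Ix (b k ε : ℕ) : Type := (Fin b × Fin (k + 1)) ⊕ Fin (2 * ε)

/-- the branch points are `(xx i : zz i)` -/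
noncomputable def xx {b k ε : ℕ} (θ ζ : F) (ω : Fin b → F) : Ix b k ε → F
  | Sum.inl p => θ * (1 + ζ ^ (p.2 : ℕ) * ω p.1)
  | Sum.inr q => if (q : ℕ) = 0 then θ else -θ

/-- the branch points are `(xx i : zz i)` -/
noncomputable def zz {b k ε : ℕ} (ζ : F) (ω : Fin b → F) : Ix b k ε → F
  | Sum.inl p => 1 - ζ ^ (p.2 : ℕ) * ω p.1
  | Sum.inr _ => 1

/-- the points `β j`, `θ`, `- θ` downstairs -/
def pts {b : ℕ} (θ : F) (β : Fin b → F) : Fin b ⊕ Fin 2 → F
  | Sum.inl j => β j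
  | Sum.inr q => if (q : ℕ) = 0 then θ else -θ

/-- determinants of vectors `(x i, z i)` -/
def dt {ι : Type} (x z : ι → F) (i j : ι) : F := x i * z j - x j * z i

/-- cross ratios of the points with differences `D i j` have valuation at least `- B` -/
def CrB {ι : Type} (w : Valuation F ℤᵐ⁰) (D : ι → ι → F) (B : ℤ) : Prop :=
  ∀ i j k l : ι, i ≠ j → i ≠ k → i ≠ l → j ≠ k → j ≠ l → k ≠ l →
    ord w (D i k * D j l) ≤ ord w (D i j * D k l) + B

/-- `f = u ∏ (z_i X - x_i)`, no two factors proportional -/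
structure PFac {ι : Type} [Fintype ι] (f : F[X]) (u : F) (x z : ι → F) : Prop where
  u0 : u ≠ 0
  fac : f = C u * ∏ i, (C (z i) * X - C (x i))
  ind : ∀ i j, i ≠ j → dt x z i j ≠ 0

/-- distance relations between the points downstairs at a place of good reduction, in the coordinate
`(x - α₀)/ρ` -/
structure FarP {ι : Type} (w : Valuation F ℤᵐ⁰) (p : ι → F) (α₀ ρ : F) : Prop where
  r0 : ρ ≠ 0
  far : ∀ i j, i ≠ j → w (p i - p j) =
    w ρ * (max 1 (w ((p i - α₀) / ρ)) * max 1 (w ((p j - α₀) / ρ)))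

/-- the data of the covering over a field containing all roots: `ω j ^ m` is the image of
`(β j - θ)/(β j + θ)` under the twist -/
structure Cov {b : ℕ} (k : ℕ) (θ c d ζ : F) (β ω : Fin b → F) : Prop where
  th : θ ≠ 0
  cp : c + d * θ ≠ 0
  cm : c - d * θ ≠ 0
  inj : Function.Injective β
  bm : ∀ j, β j - θ ≠ 0
  bp : ∀ j, β j + θ ≠ 0
  pr : IsPrimitiveRoot ζ (k + 1)
  om : ∀ j, ω j ^ (k + 1) * ((β j + θ) * (c + d * θ) ^ k) = (β j - θ) * (c - d * θ) ^ k

end

/-- two blocks of sizes `a`, `b` are `g`-admissible -/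
def Adm (g a b : ℕ) : Prop :=
  a + b = 2 * g + 2 ∨ (a = 2 ∧ (b ∣ 2 * g ∨ (b ∣ 2 * g + 2 ∧ b ≤ g + 1))) ∨
    (b = 2 ∧ (a ∣ 2 * g ∨ (a ∣ 2 * g + 2 ∧ a ≤ g + 1)))

end Pool.Agent.Lib.MP_ca2859_nt.CC
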