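import Pool.Agent.Lib.MP_ca2859_nt.CC.Defs

/-!
# Cyclic covers: determinants of the branch points, elementary identities (proved)
-/

set_option autoImplicit false

open Polynomial WithZero IsDedekindDomain NumberField

namespace Pool.Agent.Lib.MP_ca2859_nt.CC

section
variable {F : Type*} [Field F]

theorem dt_inl_inl {b k ε : ℕ} (θ ζ : F) (ω : Fin b → F) (p q : Fin b × Fin (k + 1)) :
    dt (xx (ε := ε) θ ζ ω) (zz ζ ω) (Sum.inl p) (Sum.inl q) =
      2 * θ * (ζ ^ (p.2 : ℕ) * ω p.1 - ζ ^ (q.2 : ℕ) * ω q.1) := by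
  simp only [dt, xx, zz]; ring

theorem dt_inl_zero {b k ε : ℕ} (θ ζ : F) (ω : Fin b → F) (p : Fin b × Fin (k + 1))
    (q : Fin (2 * ε)) (hq : (q : ℕ) = 0) :
    dt (xx θ ζ ω) (zz ζ ω) (Sum.inl p) (Sum.inr q) = 2 * θ * (ζ ^ (p.2 : ℕ) * ω p.1) := by
  simp only [dt, xx, zz, hq, if_true]; ring

theorem dt_inl_one {b k ε : ℕ} (θ ζ : F) (ω : Fin b → F) (p : Fin b × Fin (k + 1))
    (q : Fin (2 * ε)) (hq : (q : ℕ) ≠ 0) :
    dt (xx θ ζ ω) (zz ζ ω) (Sum.inl p) (Sum.inr q) = 2 * θ := by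
  simp only [dt, xx, zz, hq, if_false]; ring

theorem dt_zero_one {b k ε : ℕ} (θ ζ : F) (ω : Fin b → F)
    (q q' : Fin (2 * ε)) (hq : (q : ℕ) = 0) (hq' : (q' : ℕ) ≠ 0) :
    dt (xx (k := k) θ ζ ω) (zz ζ ω) (Sum.inr q) (Sum.inr q') = 2 * θ := by
  simp only [dt, xx, zz, hq, hq', if_true, if_false]; ring

theorem dt_swap {ι : Type} (x z : ι → F) (i j : ι) : dt x z j i = - dt x z i j := by
  simp only [dt]; ring

/-- `P - θ Q = (c + dθ)^k (X - θ)^(k+1)` -/
theorem PQ_minus (θ c d : F) (k : ℕ) :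
    (PQ (θ ^ 2) c d k).1 - C θ * (PQ (θ ^ 2) c d k).2 =
      C ((c + d * θ) ^ k) * (X - C θ) ^ (k + 1) := by
  induction k with
  | zero => simp [PQ]
  | succ k ih =>
    rw [pow_succ (c + d * θ), C_mul, pow_succ (X - C θ) (k + 1)]
    have h : (PQ (θ ^ 2) c d (k + 1)).1 - C θ * (PQ (θ ^ 2) c d (k + 1)).2 =
        ((PQ (θ ^ 2) c d k).1 - C θ * (PQ (θ ^ 2) c d k).2) * (C (c + d * θ) * (X - C θ)) := by
      simp only [PQ, C_add, C_mul, C_pow]
      ring
    rw [h, ih]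
    ring

/-- `P + θ Q = (c - dθ)^k (X + θ)^(k+1)` -/
theorem PQ_plus (θ c d : F) (k : ℕ) :
    (PQ (θ ^ 2) c d k).1 + C θ * (PQ (θ ^ 2) c d k).2 =
      C ((c - d * θ) ^ k) * (X + C θ) ^ (k + 1) := by
  have h := PQ_minus (-θ) c d k
  have h2 : (-θ) ^ 2 = θ ^ 2 := by ring
  rw [h2, C_neg] at h
  rw [show c - d * θ = c + d * -θ by ring, show (X + C θ : F[X]) = X - -C θ by ring, ← h]
  ring

/-- `2θ (P - β Q) = (β + θ)(P - θ Q) - (β - θ)(P + θ Q)` -/
theorem PQ_beta (θ β c d : F) (k : ℕ) :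
    C (2 * θ) * ((PQ (θ ^ 2) c d k).1 - C β * (PQ (θ ^ 2) c d k).2) =
      C ((β + θ) * (c + d * θ) ^ k) * (X - C θ) ^ (k + 1) -
        C ((β - θ) * (c - d * θ) ^ k) * (X + C θ) ^ (k + 1) := by
  rw [C_mul (a := β + θ), C_mul (a := β - θ), mul_assoc, mul_assoc, ← PQ_minus, ← PQ_plus]
  simp only [C_add, C_sub, C_mul]
  have h2 : (C (2 : F)) = 2 := rfl
  rw [h2]
  ring

/-- homogenization of a product of linear polynomials -/
theorem hom_prod (n : ℕ) (g0 : F) (β : Fin n → F) (P Q : F[X]) :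
    hom n (C g0 * ∏ j, (X - C (β j))) P Q = C g0 * ∏ j, (P - C (β j) * Q) := by
  have key : ∀ (n : ℕ) (G : F[X]) (b : F), G.natDegree ≤ n →
      hom (n + 1) ((X - C b) * G) P Q = (P - C b * Q) * hom n G P Q := by
    intro n G b hG
    have e1 : ∀ i, ((X - C b) * G).coeff (i + 1) = G.coeff i - b * G.coeff (i + 1) := by
      intro i; rw [sub_mul, coeff_sub, coeff_X_mul, coeff_C_mul]
    have e0 : ((X - C b) * G).coeff 0 = - (b * G.coeff 0) := by
      rw [sub_mul, coeff_sub, coeff_X_mul_zero, coeff_C_mul, zero_sub]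
    have htop : G.coeff (n + 1) = 0 := coeff_eq_zero_of_natDegree_lt (by omega)
    unfold hom
    rw [Finset.sum_range_succ' _ (n + 1), e0]
    have h1 : ∀ i ∈ Finset.range (n + 1),
        C (((X - C b) * G).coeff (i + 1)) * P ^ (i + 1) * Q ^ (n + 1 - (i + 1)) =
        P * (C (G.coeff i) * P ^ i * Q ^ (n - i)) -
          C b * (C (G.coeff (i + 1)) * P ^ (i + 1) * Q ^ (n - i)) := by
      intro i _
      rw [e1, C_sub, C_mul, show n + 1 - (i + 1) = n - i by omega]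
      ring
    rw [Finset.sum_congr rfl h1, Finset.sum_sub_distrib, ← Finset.mul_sum, ← Finset.mul_sum]
    have h2 : ∑ i ∈ Finset.range (n + 1), C (G.coeff i) * P ^ i * Q ^ (n - i) * Q =
        ∑ i ∈ Finset.range (n + 1), C (G.coeff (i + 1)) * P ^ (i + 1) * Q ^ (n - i) +
          C (G.coeff 0) * Q ^ (n + 1) := by
      have h3 : ∑ i ∈ Finset.range (n + 2), C (G.coeff i) * P ^ i * Q ^ (n + 1 - i) =
          ∑ i ∈ Finset.range (n + 1), C (G.coeff i) * P ^ i * Q ^ (n - i) * Q := by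
        rw [Finset.sum_range_succ, htop, C_0, zero_mul, zero_mul, add_zero]
        refine Finset.sum_congr rfl fun i hi => ?_
        rw [Finset.mem_range] at hi
        rw [show n + 1 - i = (n - i) + 1 by omega, pow_succ]
        ring
      rw [← h3, Finset.sum_range_succ']
      simp only [pow_zero, mul_one, Nat.sub_zero]
      congr 1
      refine Finset.sum_congr rfl fun i _ => ?_
      rw [show n + 1 - (i + 1) = n - i by omega]
    rw [sub_mul, mul_assoc (C b) Q, mul_comm Q, Finset.sum_mul, h2]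
    simp only [pow_zero, mul_one, Nat.sub_zero, C_neg, C_mul]
    ring
  induction n with
  | zero => simp [hom]
  | succ n ih =>
    rw [Fin.prod_univ_succ, Fin.prod_univ_succ, ← mul_assoc, mul_comm (C g0), mul_assoc, key n,
      ih (fun j => β j.succ)]
    · ring
    · refine (natDegree_C_mul_le _ _).trans ?_
      rw [natDegree_prod_of_monic _ _ fun j _ => monic_X_sub_C _]
      simp

/-- `PQ` commutes with homomorphisms -/
theorem PQ_map {F' : Type*} [Field F'] (φ : F →+* F') (δ c d : F) (k : ℕ) :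
    ((PQ δ c d k).1.map φ, (PQ δ c d k).2.map φ) = PQ (φ δ) (φ c) (φ d) k := by
  induction k with
  | zero => simp [PQ]
  | succ k ih =>
    have h1 : (PQ (φ δ) (φ c) (φ d) k).1 = (PQ δ c d k).1.map φ := by rw [← ih]
    have h2 : (PQ (φ δ) (φ c) (φ d) k).2 = (PQ δ c d k).2.map φ := by rw [← ih]
    simp only [PQ, h1, h2, Polynomial.map_add, Polynomial.map_mul, Polynomial.map_sub,
      Polynomial.map_C, Polynomial.map_X, map_mul]

/-- `DD` commutes with homomorphisms -/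
theorem DD_map {F' : Type*} [Field F'] (φ : F →+* F') (b k ε : ℕ) (δ c d : F) (G : F[X]) :
    (DD b k ε δ c d G).map φ = DD b k ε (φ δ) (φ c) (φ d) (G.map φ) := by
  have h1 : (PQ (φ δ) (φ c) (φ d) k).1 = (PQ δ c d k).1.map φ := by rw [← PQ_map]
  have h2 : (PQ (φ δ) (φ c) (φ d) k).2 = (PQ δ c d k).2.map φ := by rw [← PQ_map]
  simp only [DD, hom, h1, h2, Polynomial.map_mul, Polynomial.map_pow, Polynomial.map_sub,
    Polynomial.map_C, Polynomial.map_X, Polynomial.map_sum, Polynomial.coeff_map]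

end

end Pool.Agent.Lib.MP_ca2859_nt.CC
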