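import Mathlib
import Pool.Agent.Lib.MP_ca2859_nt.CC.Det
import Pool.Agent.Lib.MP_ca2859_nt.FF.Stm

/-!
# Fixed field theorem, cyclic covers: statements of the pieces

GOAL (`S_FIN2` at the end). `g ≥ 1`, `m 1, …, m r ≥ 2` with `∑ m i = 2h+2`, every two of them
`g`-admissible (`Adm g a b`: `a + b = 2g+2`, or one of them is `2` and the other one divides `2g`,
or divides `2g+2` and is at most `g+1`). Then every `C : y² = F 1 ⋯ F r`, `deg (F i) ≤ m i`, of genus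
`h` over a number field `K` is dominated by a curve of genus `g` over the same `K`.

PLAN. A pair of conjugate points `± θ` (`θ² = δ ∈ K`) and `b` further points `β j`, the roots of
`G ∈ K[X]`. The covering `t ↦ x` with `(x - θ)/(x + θ) = ((c + dθ)/(c - dθ))^k ((t - θ)/(t + θ))^(k+1)`
is defined over `K` (`PQ`). The curve of genus `g` is branched over the `b (k+1)` preimages of the
`β j` and, if `ε = 1`, over `± θ`: `b (k+1) + 2 ε = 2g+2` (`DD b k ε δ c d G`). In the coordinate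
`ω = (t - θ)/(t + θ)` the preimages of `β j` are `ζ^a ω j`, `ω j ^ (k+1) = ν j ((c - dθ)/(c + dθ))^k`,
`ν j = (β j - θ)/(β j + θ)`. `c, d` are chosen (class group) such that `(c - dθ)/(c + dθ)` has the
same valuation as the `ν j` at the places of good reduction; then the covering curve has good
reduction there.

`theorem piece_X (pieces used) : S_X` in `Lib/MP_ca2859_nt/CC/P/X.lean`. `ord w x` is the additive
valuation, rules `ord_mul`, `ord_div`, `ord_pow`, `ord_nonneg`, `w_eq_exp` (`Local2.lean`);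
`ord_base`, `ram_pos` (`GR/Fin.lean`) compare `ord` for `w | v`; `exists_place_above`,
`exists_place_below`; `CC/Det.lean` has `dt_inl_inl`, …, `PQ_beta`, `hom_prod`, `DD_map`.
-/

set_option autoImplicit false

open Polynomial WithZero IsDedekindDomain NumberField
open Pool.Agent.Lib.MP_ca2859_nt Pool.Agent.Lib.MP_ca2859_nt.GR

namespace Pool.Agent.Lib.MP_ca2859_nt.CC

/-! ### algebra and valuations over one field -/

/-- FACT. `hom_prod`, `PQ_beta`, `om` and `u^m - x^m v^m = ∏_{a < m} (u - ζ^a x v)` (`m = k+1`;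
`IsPrimitiveRoot.pow_sub_pow_eq_prod_sub_mul` or similar, with `u = X - C θ`, `v = X + C θ`,
`x = ω j`):
`2θ (P - β j Q) = (β j + θ) (c + dθ)^k ∏_a ((1 - ζ^a ω j) X - θ (1 + ζ^a ω j))`; for `ε = 1`:
`X² - θ² = (X - θ)(X + θ)`. `ind`: `dt_inl_inl` etc.; `ζ^a ω i = ζ^a' ω j` gives, taking `m`-th
powers, `ν i = ν j`, so `i = j` (`inj`, `th`), then `ζ^a = ζ^a'` (`ω i ≠ 0` by `bm`), `a = a'`. -/
def S_FACT : Prop := ∀ (F : Type) [Field F] [CharZero F] (b k ε : ℕ) (θ c d ζ g0 : F)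
  (β ω : Fin b → F), ε ≤ 1 → g0 ≠ 0 → Cov k θ c d ζ β ω →
  PFac (DD b k ε (θ ^ 2) c d (C g0 * ∏ j, (X - C (β j))))
    (g0 * ∏ j, ((β j + θ) * (c + d * θ) ^ k / (2 * θ)))
    (xx (b := b) (k := k) (ε := ε) θ ζ ω) (zz (b := b) (k := k) (ε := ε) ζ ω)

/-- VALC. `ν j = (β j - θ)/(β j + θ)`, `λ j = β j + θ`: `β i - β j = λ i λ j (ν i - ν j)/(2θ)`,
`β i - θ = λ i (2θ) (ν i)/(2θ)`, `β i + θ = λ i (2θ)/(2θ)`, `2θ = (2θ)(2θ)/(2θ)`: in a cross ratio
every index occurs once on both sides, so the factors `λ j` (`λ = 2θ` for `± θ`) and `1/(2θ)`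
cancel, and one may replace the differences of the `pts` by `D i j = ν i - ν j`, `D i θ = ν i`,
`D i (-θ) = 1`, `D θ (-θ) = 1` (up to sign). Likewise `dt` by the differences of the `ζ^a ω j`, by
`ζ^a ω j` (for `θ`) and `1` (for `-θ`).
(a) `k = 0` (so `ε = 1`): `ω j = ν j`, `ζ = 1`; the claim is the hypothesis (`0 ≤ B`).
(b) `k ≥ 1`, `m = k+1`. For `i ≠ j` and `a` the four points `ω i, ζ ω i, ζ^a ω j, ζ^(a+1) ω j` give
(hypothesis in both directions) `|2 ord (ω i - ζ^a ω j) - 2 ord (1 - ζ) - ord (ω i) - ord (ω j)| ≤ B`.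
With `0 ≤ ord (1 - ζ) ≤ ord m` (`∏_{0<a<m} (1 - ζ^a) = m`) and `ord (ζ^a ω j) = ord (ω j)`: if
`ord (ω i) < ord (ω j)` then `ord (ω i - ω j) = ord (ω i)`, so `ord (ω j) - ord (ω i) ≤ B`. As
`ν i = s ω i ^ m`, `s = ((c + dθ)/(c - dθ))^k`, `ν i - ν j = s ∏_a (ω i - ζ^a ω j)`:
`|ord (ν i) - ord (ν j)| ≤ m B`, `min (ord (ν i), ord (ν j)) ≤ ord (ν i - ν j)` and
`2 ord (ν i - ν j) ≤ 2 m ord m + ord (ν i) + ord (ν j) + m B`. So all `ord D` between elements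
different from `-θ` are between `r` and `r + m ord m + 2 m B`, `r = min_i ord (ν i)` (four indices
different from each other contain at least two `β i`), and those with `-θ` are `0`. -/
def S_VALC : Prop := ∀ (F : Type) [Field F] [CharZero F] (w : Valuation F ℤᵐ⁰) (b k ε : ℕ)
  (θ c d ζ : F) (β ω : Fin b → F), ε ≤ 1 → (1 ≤ k ∨ ε = 1) → Cov k θ c d ζ β ω →
  ∀ B : ℤ, 0 ≤ B →
  CrB w (dt (xx (b := b) (k := k) (ε := ε) θ ζ ω) (zz (b := b) (k := k) (ε := ε) ζ ω)) B →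
  CrB w (fun i j => pts θ β i - pts θ β j) (8 * (k + 1) * (B + ord w ((k + 1 : ℕ) : F)))

/-- HYP. `f.map = u ∏ (z i X - x i)`; at most one `z i` is `0` and then `x i ≠ 0` (`dt ≠ 0`), so
the degree is `2g+2` or `2g+1`; the factors are pairwise coprime
(`z j (z i X - x i) - z i (z j X - x j) = - dt i j` up to sign) and separable
(`Polynomial.separable_map`, `Polynomial.separable_prod`; a constant factor is a unit). -/
def S_HYP : Prop := ∀ (K L : Type) [Field K] [Field L] [Algebra K L] (g : ℕ) (f : K[X])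
  (ι : Type) [Fintype ι] (u : L) (x z : ι → L), Fintype.card ι = 2 * g + 2 →
  PFac (f.map (algebraMap K L)) u x z → IsHyperelliptic g f

/-- GSS. Gauss. Over the residue field of `w` all factors are nonzero, so their product is. (Or
`gauss_full` / `gauss_prod` in `CRGood.lean`: if all coefficients had `w ≤ exp (-1)` then
`∏ max (w (z i)) (w (x i)) ≤ exp (-1)`; the factors with `z i = 0` are constants with `w = 1`.) -/
def S_GSS : Prop := ∀ (F : Type) [Field F] (w : Valuation F ℤᵐ⁰) (ι : Type) [Fintype ι]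
  (x z : ι → F), (∀ i, max (w (x i)) (w (z i)) = 1) →
  ∃ n, w ((∏ i, (C (z i) * X - C (x i))).coeff n) = 1

/-- LOCW. With `s = max 1 (w ((θ - α₀)/ρ))`, `t = max 1 (w ((-θ - α₀)/ρ))`,
`u j = max 1 (w ((β j - α₀)/ρ))`, `FarP` says `w (β j - θ) = w ρ * u j * s`,
`w (β j + θ) = w ρ * u j * t`, `w (2θ) = w ρ * s * t`, `w (β i - β j) = w ρ * u i * u j`. So
`w (ν j) = s/t` and for `i ≠ j`, from `ν i - ν j = 2θ (β i - β j)/((β i + θ)(β j + θ))`,
`w (ν i - ν j) = s/t`. `ω j ^ (k+1) = ν j σ^k`, `σ = (c - dθ)/(c + dθ)`, `w σ = s/t`: so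
`w (ω j) = s/t` (`(k+1)`-th powers are equal). `∏_a (ω i - ζ^a ω j) = ω i ^ (k+1) - ω j ^ (k+1) =
(ν i - ν j) σ^k` has `w = (s/t)^(k+1)` and every factor has `w ≤ s/t`, so every factor has
`w = s/t`. For `i = j`, `a ≠ a'`: `w (ζ^a - ζ^a') = 1`, since `∏_{0<a<k+1} (1 - ζ^a) = k+1` has
`w = 1` and all factors have `w ≤ 1`. -/
def S_LOCW : Prop := ∀ (F : Type) [Field F] [CharZero F] (w : Valuation F ℤᵐ⁰) (b k : ℕ)
  (θ c d ζ α₀ ρ : F) (β ω : Fin b → F), Cov k θ c d ζ β ω → w ((k + 1 : ℕ) : F) = 1 →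
  FarP w (pts θ β) α₀ ρ →
  (∀ j, w ((c - d * θ) / (c + d * θ)) = w ((β j - θ) / (β j + θ))) →
  (∀ j, w (ω j) * max 1 (w ((-θ - α₀) / ρ)) = max 1 (w ((θ - α₀) / ρ))) ∧
  ∀ p q : Fin b × Fin (k + 1), p ≠ q →
    w (ζ ^ (p.2 : ℕ) * ω p.1 - ζ ^ (q.2 : ℕ) * ω q.1) * max 1 (w ((-θ - α₀) / ρ)) =
      max 1 (w ((θ - α₀) / ρ))

/-- RTS. `(X² - θ²) G = g0 (X - θ)(X + θ) ∏ (X - β j)` is separable (it divides `f`), so its
factors are not associated: `θ ≠ -θ` and `pts θ β` is injective; each `pts θ β i` is a root of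
`f`. -/
def S_RTS : Prop := ∀ (F : Type) [Field F] [CharZero F] (n b : ℕ) (f G : F[X]) (a g0 θ : F)
  (α : Fin n → F) (β : Fin b → F), f.Separable → a ≠ 0 → f = C a * ∏ j, (X - C (α j)) →
  g0 ≠ 0 → G = C g0 * ∏ j, (X - C (β j)) → (X ^ 2 - C (θ ^ 2)) * G ∣ f →
  θ ≠ 0 ∧ Function.Injective (pts θ β) ∧
    ∃ τ : Fin b ⊕ Fin 2 → Fin n, Function.Injective τ ∧ ∀ i, α (τ i) = pts θ β i

/-! ### local statements -/

/-- CRP. `t ∈ K` with `f.eval t ≠ 0` (`exists_nonroot`). `flip g t f` (`Mobius.lean`, `flip_eval`;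
as in `GR/A3.lean`) is, over `L`, `u ∏ (t z i - x i) ∏ (X - γ i)`, `γ i = z i/(x i - t z i)`, and
`γ i - γ j = - dt x z i j / ((x i - t z i)(x j - t z j))`. `cross_bound` (`GR/A2.lean`) for
`flip g t f` (`flip_hyper`, `discExp_flip`), enumeration `Fin (2g+2) ≃ ι`; in both products every
index occurs once. (`2 a ≤ 2 b + e x`, `x ≥ 0` gives `a ≤ b + e x`.) -/
def S_CRP : Prop := ∀ (K : Type) [Field K] [NumberField K] (L : Type) [Field L] [NumberField L]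
  [Algebra K L] (g : ℕ), 1 ≤ g → ∀ f : K[X], IsHyperelliptic g f →
  ∀ (v : HeightOneSpectrum (𝓞 K)) (w : HeightOneSpectrum (𝓞 L)), w.asIdeal.LiesOver v.asIdeal →
  ∀ (ι : Type) [Fintype ι] (u : L) (x z : ι → L), Fintype.card ι = 2 * g + 2 →
  PFac (f.map (algebraMap K L)) u x z →
  CrB (w.valuation L) (dt x z) ((Ideal.ramificationIdx' v.asIdeal w.asIdeal : ℕ) *
    (discExp g f v + (4 * g + 4) * ord (v.valuation K) (2 : K)))

/-- UNIT. `P` is `v`-integral (`w` of its coefficients is at most `1`) of degree `2g+2` or `2g+1`;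
`w (eqDisc g P) = 1`: if no `z i` is `0` then `P = (u ∏ z i) ∏ (X - x i/z i)` and (`discr_split`)
`P.discr = ± (u ∏ z i)^(2n-2) ∏_{i≠j} (x i/z i - x j/z j) = ± u^(2n-2) ∏_{i≠j} dt i j`, `n = 2g+2`;
if `z i₀ = 0` then `P` has degree `n-1`, leading coefficient `ℓ = - u x i₀ ∏' z i`, and
`ℓ² P.discr = ± ℓ^(2n-2) ∏'_{i≠j} (dt i j/(z i z j)) = ± u^(2n-2) x i₀^(2n-2) ∏' z i² ∏'_{i≠j} dt i j`,
where `x i₀ z i = dt i₀ i` has `w = 1`. So `(P, 0)` is a Weierstrass model with unit discriminant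
(`f0_zero`, `minDiscExp_le` with `k = 0`, `discExp_same`). -/
def S_UNIT : Prop := ∀ (K : Type) [Field K] [NumberField K] (L : Type) [Field L] [NumberField L]
  [Algebra K L] (g : ℕ), 1 ≤ g → ∀ P : K[X],
  ∀ (v : HeightOneSpectrum (𝓞 K)) (w : HeightOneSpectrum (𝓞 L)), w.asIdeal.LiesOver v.asIdeal →
  v.valuation K (2 : K) = 1 → ∀ (ι : Type) [Fintype ι] (u : L) (x z : ι → L),
  Fintype.card ι = 2 * g + 2 → PFac (P.map (algebraMap K L)) u x z → w.valuation L u = 1 →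
  (∀ i, w.valuation L (x i) ≤ 1 ∧ w.valuation L (z i) ≤ 1) →
  (∀ i j, i ≠ j → w.valuation L (dt x z i j) = 1) →
  ∀ f : K[X], f.natDegree ≤ 2 * g + 2 → SameCurve g f P → discExp g f v = 0

/-- LOCD (from FACT, LOCW, GSS, UNIT). Put `H = (DD b k ε δ c d G).comp (C ρ * X + C α₀) ∈ K[X]`,
`Θ = (θ - α₀)/ρ`, `Θ' = (-θ - α₀)/ρ`, `κ = 1` if `w Θ ≤ 1` and `κ = Θ⁻¹` otherwise, `κ'` likewise
for `Θ'`: `w κ * max 1 (w Θ) = 1`, `w κ' * max 1 (w Θ') = 1`, `κ, κ Θ, κ', κ' Θ'` integral,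
`w (κ κ' (Θ - Θ')) = 1` (`FarP` for `θ`, `-θ`). FACT and `DD_map` give the factorisation over `L`;
after the substitution the factor of `(j, a)` is, with `ω = ζ^a ω j = ω̃ κ'/κ`, `w ω̃ = 1` (LOCW),
`ρ (1 - ω) X - ρ (Θ - ω Θ') = (ρ/κ) ((κ - ω̃ κ') X - (κ Θ - ω̃ κ' Θ'))` and the factors of `± θ`
are `(ρ/κ)(κ X - κ Θ)`, `(ρ/κ')(κ' X - κ' Θ')`. These vectors `(x i, z i)` are integral and their
determinants are `κ κ' (Θ - Θ') (ω̃ - ω̃')`, `± κ κ' (Θ - Θ') ω̃`, `± κ κ' (Θ - Θ')`, units by LOCW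
(so each vector is primitive: `max (w (x i)) (w (z i)) = 1`). `H.map = u' ∏ (z i X - x i)`. GSS:
some coefficient `h` of `H` has `w h = w u'`; `m = ord_v h`. If `ord_v e = m + 2l` choose `r ∈ K`
with `ord_v r = -(m + l)` (a power of a uniformizer); `P = C (r² e) * H`: `w (r² e u') = 1`;
UNIT for `P`, `SameCurve g (C e * DD …) P` with `(ρ, α₀, 0, 1, r)`. (The degree of `C e * DD …` is
at most `2g+2`: it has `2g+2` factors.) -/
def S_LOCD : Prop := ∀ (K : Type) [Field K] [NumberField K] (L : Type) [Field L] [NumberField L]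
  [Algebra K L] (g b k ε : ℕ), 1 ≤ g → ε ≤ 1 → b * (k + 1) + 2 * ε = 2 * g + 2 →
  ∀ (v : HeightOneSpectrum (𝓞 K)) (w : HeightOneSpectrum (𝓞 L)), w.asIdeal.LiesOver v.asIdeal →
  v.valuation K (2 : K) = 1 → v.valuation K ((k + 1 : ℕ) : K) = 1 →
  ∀ (G : K[X]) (δ c d α₀ ρ : K) (θ ζ g0 : L) (β ω : Fin b → L), g0 ≠ 0 →
  θ ^ 2 = algebraMap K L δ → G.map (algebraMap K L) = C g0 * ∏ j, (X - C (β j)) →
  Cov k θ (algebraMap K L c) (algebraMap K L d) ζ β ω →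
  FarP (w.valuation L) (pts θ β) (algebraMap K L α₀) (algebraMap K L ρ) →
  (∀ j, w.valuation L ((algebraMap K L c - algebraMap K L d * θ) /
    (algebraMap K L c + algebraMap K L d * θ)) = w.valuation L ((β j - θ) / (β j + θ))) →
  ∃ m : ℤ, ∀ e : K, e ≠ 0 → (∃ l : ℤ, ord (v.valuation K) e = m + 2 * l) →
    discExp g (C e * DD b k ε δ c d G) v = 0

/-- FINI. Outside a finite set of places the coefficients of `f` are integral and `eqDisc g f` is a
unit (`finite_val_ne_one`). If `ord e = 2k` choose `r` with `ord r = -k`: the model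
`(C (r² e) * f, 0)` has unit discriminant (`eqDisc g (C x * f)` is a power of `x` times
`eqDisc g f`: `x^(4g+2)` in both degrees), `SameCurve` with `(1, 0, 0, 1, r)`. -/
def S_FINI : Prop := ∀ (K : Type) [Field K] [NumberField K] (g : ℕ), 1 ≤ g → ∀ f : K[X],
  IsHyperelliptic g f → {v : HeightOneSpectrum (𝓞 K) | ¬ ∀ e : K, e ≠ 0 →
    (∃ k : ℤ, ord (v.valuation K) e = 2 * k) → discExp g (C e * f) v = 0}.Finite

/-! ### class groups: choice of `c, d` -/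

/-- CLS (generalises `S_TW`, see `FF/Stm.lean`). `I = ∏ w^(n w)` (a fractional ideal); the class of
`I⁻¹` contains an integral ideal `A` of norm at most the Minkowski bound
(`exists_ideal_in_class_of_norm_le`), `I A = (a)`, `J` = the primes dividing `A`. To avoid
fractional ideals: `I₁ = ∏ w^(max (n w) 0)`, `I₂ = ∏ w^(max (-n w) 0)` are ideals; the class
`ClassGroup.mk0 I₁ * (ClassGroup.mk0 I₂)⁻¹` contains an ideal `A` of bounded norm; `A I₂` and `I₁`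
are in the same class: `(x) A I₂ = (y) I₁` with `x, y ≠ 0` (`ClassGroup.mk0_eq_mk0_iff`); `a = x/y`:
for `w ∤ A`, `ord_w a = n₁ w - n₂ w = n w`. -/
def S_CLS : Prop := ∀ (M : Type) [Field M] [NumberField M] (n : HeightOneSpectrum (𝓞 M) → ℤ),
  {w | n w ≠ 0}.Finite → ∃ a : M, a ≠ 0 ∧ ∃ J : Finset (HeightOneSpectrum (𝓞 M)),
    ∏ w ∈ J, Ideal.absNorm w.asIdeal ≤ 2 ^ Module.finrank ℚ M * (discr M).natAbs ∧
    ∀ w, w ∉ J → ord (w.valuation M) a = n w

/-- DSUB. `|D_L| = |D_M|^[L:M] N(𝔡_{L/M})` (`natAbs_discr_eq_absNorm_differentIdeal_mul_natAbs_discr_pow`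
or similar in Mathlib) and `D_L ≠ 0`. -/
def S_DSUB : Prop := ∀ (M L : Type) [Field M] [NumberField M] [Field L] [NumberField L]
  [Algebra M L], (discr M).natAbs ≤ (discr L).natAbs

/-- BEL. `J` = the places below the elements of `J'` (`exists_place_below`); `N v ≤ N w` if
`w | v` (`v.asIdeal = w.asIdeal.under _`; the residue field of `v` embeds into that of `w`; or
`Ideal.absNorm_eq_pow_inertiaDeg`…), choose one `w ∈ J'` above every `v ∈ J`. -/
def S_BEL : Prop := ∀ (K M : Type) [Field K] [NumberField K] [Field M] [NumberField M]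
  [Algebra K M] (J' : Finset (HeightOneSpectrum (𝓞 M))),
  ∃ J : Finset (HeightOneSpectrum (𝓞 K)),
    ∏ v ∈ J, Ideal.absNorm v.asIdeal ≤ ∏ w ∈ J', Ideal.absNorm w.asIdeal ∧
    ∀ v, v ∉ J → ∀ w : HeightOneSpectrum (𝓞 M), w.asIdeal.LiesOver v.asIdeal → w ∉ J'

/-- TAU. `w'` = the inverse image of `w` under the automorphism of `𝓞 M` induced by `τ`: `x ∈ w'^n`
iff `τ x ∈ w^n`. (Valuations of integers via `intValuation`, then fractions.) -/
def S_TAU : Prop := ∀ (K M : Type) [Field K] [NumberField K] [Field M] [NumberField M]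
  [Algebra K M] (τ : M ≃ₐ[K] M) (w : HeightOneSpectrum (𝓞 M)),
  ∃ w' : HeightOneSpectrum (𝓞 M),
    (∀ v : HeightOneSpectrum (𝓞 K), w.asIdeal.LiesOver v.asIdeal → w'.asIdeal.LiesOver v.asIdeal) ∧
    ∀ x : M, ord (w'.valuation M) x = ord (w.valuation M) (τ x)

/-- MKS (from CLS). `n v = ord_v q / b` for `v ∉ B`, `0` for `v ∈ B`; CLS gives `σ ∈ K*` and `J`;
`c = θ (1 + σ)`, `d = 1 - σ`: `c - dθ = 2θσ`, `c + dθ = 2θ`. -/
def S_MKS : Prop := ∀ (K : Type) [Field K] [NumberField K] (θ q : K) (b : ℕ), 1 ≤ b → θ ≠ 0 →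
  q ≠ 0 → ∀ B : Finset (HeightOneSpectrum (𝓞 K)),
  (∀ v, v ∉ B → (b : ℤ) ∣ ord (v.valuation K) q) →
  ∃ c d : K, c + d * θ ≠ 0 ∧ c - d * θ ≠ 0 ∧ ∃ J : Finset (HeightOneSpectrum (𝓞 K)),
    ∏ v ∈ J, Ideal.absNorm v.asIdeal ≤ 2 ^ Module.finrank ℚ K * (discr K).natAbs ∧
    ∀ v, v ∉ B → v ∉ J →
      b * ord (v.valuation K) ((c - d * θ) / (c + d * θ)) = ord (v.valuation K) q

/-- MKN (from CLS, BEL, TAU). For a place `w` of `M` put `n w = max (-(ord_w q / b)) 0` if `w` lies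
over some `v ∉ B`, `n w = 0` otherwise (finite support: `ord_w q ≠ 0`). CLS: `a ∈ M*`, `J'`; BEL:
`J`. `a = c + dθ`, so `τ a = c - dθ`. Let `v ∉ B`, `v ∉ J`, `w | v`, and `w'` as in TAU, so
`w, w' ∉ J'` and `ord_w' q = ord_w (τ q) = - ord_w q`: `ord_w (τ a) = ord_w' a = max (ord_w q / b) 0`,
`ord_w a = max (-(ord_w q / b)) 0`; the difference is `ord_w q / b`. -/
def S_MKN : Prop := ∀ (K M : Type) [Field K] [NumberField K] [Field M] [NumberField M]
  [Algebra K M] (τ : M ≃ₐ[K] M) (θ q : M) (b : ℕ), 1 ≤ b → τ θ = -θ →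
  (∀ z : M, ∃ c d : K, z = algebraMap K M c + algebraMap K M d * θ) → q ≠ 0 → τ q = q⁻¹ →
  ∀ B : Finset (HeightOneSpectrum (𝓞 K)),
  (∀ v, v ∉ B → ∀ w : HeightOneSpectrum (𝓞 M), w.asIdeal.LiesOver v.asIdeal →
    (b : ℤ) ∣ ord (w.valuation M) q) →
  ∃ c d : K, algebraMap K M c + algebraMap K M d * θ ≠ 0 ∧
    algebraMap K M c - algebraMap K M d * θ ≠ 0 ∧ ∃ J : Finset (HeightOneSpectrum (𝓞 K)),
    ∏ v ∈ J, Ideal.absNorm v.asIdeal ≤ 2 ^ Module.finrank ℚ M * (discr M).natAbs ∧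
    ∀ v, v ∉ B → v ∉ J → ∀ w : HeightOneSpectrum (𝓞 M), w.asIdeal.LiesOver v.asIdeal →
      b * ord (w.valuation M) ((algebraMap K M c - algebraMap K M d * θ) /
        (algebraMap K M c + algebraMap K M d * θ)) = ord (w.valuation M) q

/-- MINK (from MKS, MKN, DSUB). (a) `θ = algebraMap K L t`: MKS for `t` and `q = (x + yt)/(x - yt)`;
for `v ∉ B` choose `w | v` (`exists_place_above`): `e ord_v q = b e ord_v (s + t' t)`, so
`b ∣ ord_v q`. (b) otherwise `M = K(θ) ⊆ L` (`IntermediateField.adjoin K {θ}`) has degree `2` over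
`K`, `minpoly = X² - δ`, automorphism `τ θ = -θ`, every element is `c + dθ`; MKN for
`q = (x + yθ)/(x - yθ)`; for a place `w₀` of `M` over `v ∉ B` choose `w` of `L` over `w₀`:
`e ord_w₀ q = b e ord_w₀ (s + tθ)`. The claim for `w` from the one for the place of `M` below `w`.
`2^[M:ℚ] = 4^[K:ℚ]`, DSUB. -/
def S_MINK : Prop := ∀ (K : Type) [Field K] [NumberField K] (L : Type) [Field L] [NumberField L]
  [Algebra K L] (θ : L) (δ x y : K) (b : ℕ), 1 ≤ b → θ ≠ 0 → θ ^ 2 = algebraMap K L δ →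
  algebraMap K L x + algebraMap K L y * θ ≠ 0 → algebraMap K L x - algebraMap K L y * θ ≠ 0 →
  ∀ B : Finset (HeightOneSpectrum (𝓞 K)),
  (∀ v, v ∉ B → ∀ w : HeightOneSpectrum (𝓞 L), w.asIdeal.LiesOver v.asIdeal →
    ∃ s t : K, algebraMap K L s + algebraMap K L t * θ ≠ 0 ∧
      ord (w.valuation L) ((algebraMap K L x + algebraMap K L y * θ) /
        (algebraMap K L x - algebraMap K L y * θ)) =
      b * ord (w.valuation L) (algebraMap K L s + algebraMap K L t * θ)) →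
  ∃ c d : K, algebraMap K L c + algebraMap K L d * θ ≠ 0 ∧
    algebraMap K L c - algebraMap K L d * θ ≠ 0 ∧ ∃ J : Finset (HeightOneSpectrum (𝓞 K)),
    ∏ v ∈ J, Ideal.absNorm v.asIdeal ≤ 4 ^ Module.finrank ℚ K * (discr L).natAbs ∧
    ∀ v, v ∉ B → v ∉ J → ∀ w : HeightOneSpectrum (𝓞 L), w.asIdeal.LiesOver v.asIdeal →
      b * ord (w.valuation L) ((algebraMap K L c - algebraMap K L d * θ) /
        (algebraMap K L c + algebraMap K L d * θ)) =
      ord (w.valuation L) ((algebraMap K L x + algebraMap K L y * θ) /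
        (algebraMap K L x - algebraMap K L y * θ))

/-- FRP (from RTS). `good_far` (`GoodD.lean`, `not_mem_SB`), `Far.dist` for the roots
`α (τ i) = pts θ β i`. -/
def S_FRP : Prop := ∀ (K : Type) [Field K] [NumberField K] (L : Type) [Field L] [NumberField L]
  [Algebra K L] (h b : ℕ), 1 ≤ h → ∀ (f G : K[X]) (δ : K) (θ a g0 : L)
  (α : Fin (2 * h + 2) → L) (β : Fin b → L), IsHyperelliptic h f → a ≠ 0 →
  f.map (algebraMap K L) = C a * ∏ j, (X - C (α j)) → g0 ≠ 0 →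
  G.map (algebraMap K L) = C g0 * ∏ j, (X - C (β j)) → θ ^ 2 = algebraMap K L δ →
  (X ^ 2 - C δ) * G ∣ f →
  ∀ v : HeightOneSpectrum (𝓞 K), v ∉ SB h f → ∀ w : HeightOneSpectrum (𝓞 L),
  w.asIdeal.LiesOver v.asIdeal → ∃ α₀ ρ : K,
    FarP (w.valuation L) (pts θ β) (algebraMap K L α₀) (algebraMap K L ρ)

/-- CDJ (from RTS, FRP, MINK). `G(θ) = x + yθ` with `x, y ∈ K` (powers of `θ` are in `K + Kθ`;
e.g. the remainder of `G` modulo `X² - δ`), `G(-θ) = x - yθ`, both nonzero (`pts θ β` injective).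
`∏ ν j = ∏ (β j - θ)/(β j + θ) = G(θ)/G(-θ) = (x + yθ)/(x - yθ)`. For `v ∉ SB h f`, `w | v`: by FRP
`w (ν j) = s/t`, `s = max 1 (w ((θ - α₀)/ρ))`, `t = max 1 (w ((-θ - α₀)/ρ))`, for all `j`, and `s` is
the `w` of `1` or of `(θ - α₀)/ρ`, `t` likewise, so `s/t` is the `w` of an element of `K(θ)`, which
is `K + Kθ` (if `κ = x₁ + y₁θ ≠ 0` then `1/κ = (x₁ - y₁θ)/(x₁² - y₁²δ)`): hypothesis of MINK with
`B = SB h f`. Its conclusion: `w (σ)^b = w (∏ ν j) = w (ν j)^b`, so `w σ = w (ν j)`. -/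
def S_CDJ : Prop := ∀ (K : Type) [Field K] [NumberField K] (L : Type) [Field L] [NumberField L]
  [Algebra K L] (h b : ℕ), 1 ≤ h → 1 ≤ b → ∀ (f G : K[X]) (δ : K) (θ a g0 : L)
  (α : Fin (2 * h + 2) → L) (β : Fin b → L), IsHyperelliptic h f → a ≠ 0 →
  f.map (algebraMap K L) = C a * ∏ j, (X - C (α j)) → g0 ≠ 0 →
  G.map (algebraMap K L) = C g0 * ∏ j, (X - C (β j)) → θ ^ 2 = algebraMap K L δ →
  (X ^ 2 - C δ) * G ∣ f →
  ∃ c d : K, algebraMap K L c + algebraMap K L d * θ ≠ 0 ∧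
    algebraMap K L c - algebraMap K L d * θ ≠ 0 ∧ ∃ J : Finset (HeightOneSpectrum (𝓞 K)),
    ∏ v ∈ J, Ideal.absNorm v.asIdeal ≤ 4 ^ Module.finrank ℚ K * (discr L).natAbs ∧
    ∀ v, v ∉ SB h f → v ∉ J → ∀ w : HeightOneSpectrum (𝓞 L), w.asIdeal.LiesOver v.asIdeal →
      ∀ j, w.valuation L ((algebraMap K L c - algebraMap K L d * θ) /
        (algebraMap K L c + algebraMap K L d * θ)) = w.valuation L ((β j - θ) / (β j + θ))

/-- COVE. `L'` = `L` with `ζ` and the `(k+1)`-th roots `ω j` of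
`(β j - θ)(c - dθ)^k/((β j + θ)(c + dθ)^k)` adjoined (splitting field of a product, or
`IntermediateField.adjoin` of a finite set in `AlgebraicClosure L`). -/
def S_COVE : Prop := ∀ (K : Type) [Field K] [NumberField K] (L : Type) [Field L] [NumberField L]
  [Algebra K L] (b k : ℕ) (θ : L) (β : Fin b → L) (c d : K), θ ≠ 0 →
  Function.Injective (pts θ β) → algebraMap K L c + algebraMap K L d * θ ≠ 0 →
  algebraMap K L c - algebraMap K L d * θ ≠ 0 →
  ∃ (L' : Type) (_ : Field L') (_ : NumberField L') (_ : Algebra L L') (_ : Algebra K L')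
    (_ : IsScalarTower K L L') (ζ : L') (ω : Fin b → L'),
    Cov k (algebraMap L L' θ) (algebraMap K L' c) (algebraMap K L' d) ζ
      (fun j => algebraMap L L' (β j)) ω

/-! ### the curve of genus `g` -/

/-- BND. `N = (2h+2)^(2h+2)`, `A = 8 (4h+4) (k+1) (N (4h+4))^N + N + 1`. -/
def S_BND : Prop := ∀ h k : ℕ, ∃ A : ℕ, ∀ n D M Q : ℕ, 1 ≤ n → 1 ≤ D → 1 ≤ M →
  Q ≤ ((((2 * h + 2) ^ (2 * h + 2)) ^ n * (M * (4 * h + 4) ^ n)) ^ ((2 * h + 2) ^ (2 * h + 2))) *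
    D ^ ((2 * h + 2) ^ (2 * h + 2)) →
  (M * (4 * h + 4) ^ n) * (k + 1) ^ n * (4 ^ n * Q) * (2 ^ n * D) ≤ (A ^ n * D * M) ^ A

/-- MCD (from RTS, FRP, CDJ, COVE, FACT, HYP, LOCD, FINI, BND and `FF.S_GLOB`).
`L₀ = spl f`, roots `α`, `a` (`exists_rootData`), `θ` a root of `X² - δ`, `G` splits over `L₀`
(it divides `f`), roots `β` (`b` of them, `g0` the leading coefficient). RTS, CDJ for `L₀`: `c, d, J₁`.
COVE: `L'`, `Cov`. `D = DD b k ε δ c d G`: FACT, `DD_map` and HYP over `L'`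
(`card (Ix b k ε) = 2g+2`): `IsHyperelliptic g D`; the same for `C e * D`. GLOB with
`P e v = (discExp g (C e * D) v = 0)` and `B = SB h f ∪ {v | v (k+1) ≠ 1} ∪ J₁`: its hypothesis for
`v ∉ B` is LOCD with a place `w` of `L'` over `v` (FRP for `L'`; the last hypothesis from CDJ for the
place of `L₀` below `w`, `valuation_liesOver`), the finiteness is FINI. So
`MC g (C e * D) ≤ ∏_{SB h f} · ∏_{v ∣ k+1} · ∏_{J₁} · ∏_{J₂} ≤ (MC h f · (4h+4)^n) · (k+1)^n ·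
(4^n |D_{L₀}|) · (2^n |D_K|)`, `n = [K:ℚ]` (`prod_SB_le`, `prod_dvd_le`: the elements of `B0 K h`
divide `4h+4`); `spl_discr`, BND with `M = MC h f`. -/
def S_MCD : Prop := ∀ (g h b k ε : ℕ), 1 ≤ g → 1 ≤ h → 1 ≤ b → ε ≤ 1 →
  b * (k + 1) + 2 * ε = 2 * g + 2 → ∃ A : ℕ, ∀ (K : Type) [Field K] [NumberField K] (f G : K[X])
  (δ : K), IsHyperelliptic h f → f.natDegree = 2 * h + 2 → G.natDegree = b →
  (X ^ 2 - C δ) * G ∣ f →
  ∃ c d e : K, c ^ 2 - δ * d ^ 2 ≠ 0 ∧ e ≠ 0 ∧ IsHyperelliptic g (C e * DD b k ε δ c d G) ∧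
    MC g (C e * DD b k ε δ c d G) ≤
      (A ^ Module.finrank ℚ K * (discr K).natAbs * MC h f) ^ A

/-- CRD (from COVE, FACT, HYP, CRP, VALC). Over `L'` of COVE, `w' | w`: FACT, `DD_map` (and the
factor `e`) give `PFac`, HYP; CRP: `CrB w' (dt …) (e(w'|v) (discExp + (4g+4) ord_v 2))`; VALC; then
`ord_w' x = e(w'|w) ord_w x` for `x ∈ L`, `ord_w' (k+1) = e(w'|v) ord_v (k+1)`,
`e(w'|v) = e(w'|w) e(w|v)`: divide by `e(w'|w)`. (`pts` commutes with `algebraMap L L'`.) -/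
def S_CRD : Prop := ∀ (K : Type) [Field K] [NumberField K] (L : Type) [Field L] [NumberField L]
  [Algebra K L] (g b k ε : ℕ), 1 ≤ g → ε ≤ 1 → (1 ≤ k ∨ ε = 1) →
  b * (k + 1) + 2 * ε = 2 * g + 2 →
  ∀ (v : HeightOneSpectrum (𝓞 K)) (w : HeightOneSpectrum (𝓞 L)), w.asIdeal.LiesOver v.asIdeal →
  ∀ (G : K[X]) (δ c d e : K) (θ g0 : L) (β : Fin b → L), g0 ≠ 0 → θ ≠ 0 →
  Function.Injective (pts θ β) → θ ^ 2 = algebraMap K L δ →
  G.map (algebraMap K L) = C g0 * ∏ j, (X - C (β j)) → c ^ 2 - δ * d ^ 2 ≠ 0 → e ≠ 0 →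
  CrB (w.valuation L) (fun i j => pts θ β i - pts θ β j)
    ((Ideal.ramificationIdx' v.asIdeal w.asIdeal : ℕ) * (8 * (k + 1) *
      (discExp g (C e * DD b k ε δ c d G) v + (4 * g + 4) * ord (v.valuation K) (2 : K) +
        ord (v.valuation K) ((k + 1 : ℕ) : K))))

/-- the cross ratios of the roots in `T` are controlled by a curve of genus `g` -/
def Seen (g h A : ℕ) {K : Type} [Field K] [NumberField K] {L : Type} [Field L] [NumberField L]
    [Algebra K L] (f : K[X]) (α : Fin (2 * h + 2) → L) (T : Finset (Fin (2 * h + 2))) : Prop :=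
  ∃ D : K[X], IsHyperelliptic g D ∧
    MC g D ≤ (A ^ Module.finrank ℚ K * (discr K).natAbs * MC h f) ^ A ∧
    ∀ (v : HeightOneSpectrum (𝓞 K)) (w : HeightOneSpectrum (𝓞 L)),
    w.asIdeal.LiesOver v.asIdeal →
    ∀ i ∈ T, ∀ j ∈ T, ∀ k ∈ T, ∀ l ∈ T, i ≠ j → i ≠ k → i ≠ l → j ≠ k → j ≠ l → k ≠ l →
    2 * ord (w.valuation L) ((α i - α k) * (α j - α l)) ≤
      2 * ord (w.valuation L) ((α i - α j) * (α k - α l)) +
      (Ideal.ramificationIdx' v.asIdeal w.asIdeal : ℕ) *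
        (A * (discExp g D v + cnt A.factorial v) : ℕ)

/-- MONO. `cnt` is monotone for divisibility (`Nat.factorial_dvd_factorial`), and the base of the
power is at least `1` if `A ≥ 1` (`MC_pos`, `one_le_discr`); for `A = 0` the first bound says
`MC g D ≤ 1`. -/
def S_MONO : Prop := ∀ (g h A A' : ℕ), 1 ≤ g → 1 ≤ h → A ≤ A' → ∀ (K : Type) [Field K]
  [NumberField K] (L : Type) [Field L] [NumberField L] [Algebra K L] (f : K[X])
  (α : Fin (2 * h + 2) → L) (T : Finset (Fin (2 * h + 2))), IsHyperelliptic h f →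
  Seen g h A f α T → Seen g h A' f α T

/-- TRL. `f.comp (X - C s)` has the roots `α j + s`; `SameCurve h f (f.comp (X - C s))` with
`(1, -s, 0, 1, 1)`, `discExp_same`. -/
def S_TRL : Prop := ∀ (K : Type) [Field K] [NumberField K] (s : K),
  (∀ (h : ℕ) (f : K[X]), IsHyperelliptic h f → IsHyperelliptic h (f.comp (X - C s)) ∧
    (f.comp (X - C s)).natDegree = f.natDegree ∧ MC h (f.comp (X - C s)) = MC h f) ∧
  ∀ (p : K[X]) (L : Type) [Field L] [Algebra K L] (a : L) (ι : Type) (T : Finset ι) (α : ι → L),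
    p.map (algebraMap K L) = C a * ∏ j ∈ T, (X - C (α j)) →
    (p.comp (X - C s)).map (algebraMap K L) =
      C a * ∏ j ∈ T, (X - C (α j + algebraMap K L s))

/-- PAIR (from MCD, CRD, TRL, RTS). `T₁ = {i, j}`, `q₁ = X² + pX + q₀`, `s = p/2 ∈ K`,
`θ = α i + s = (α i - α j)/2`, `-θ = α j + s`, `δ = θ² = p²/4 - q₀`, `f' = f.comp (X - C s)`,
`G = q₂.comp (X - C s)`: `q₁.comp (X - C s) = X² - C δ`, `(X² - C δ) G ∣ f'` (over `L`, then over
`K`: `Polynomial.map_dvd_map'`). `b ∣ 2g`: `ε = 1`, `k + 1 = 2g/b`; `b ∣ 2g+2`, `b ≤ g+1`: `ε = 0`,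
`k + 1 = (2g+2)/b ≥ 2`. MCD for `f'`: `c, d, e`; `D = C e * DD …`. CRD with `β` = the
`α j + s`, `j ∈ T₂`, enumerated by `Fin b`; differences are translation invariant.
`A = 16 (k+1)(4g+5) + A₀ + 2` (`2` and `k+1` divide `A!`; `ord_eq_cnt`). -/
def S_PAIR : Prop := ∀ (g h b : ℕ), 1 ≤ g → 1 ≤ h → 1 ≤ b →
  (b ∣ 2 * g ∨ (b ∣ 2 * g + 2 ∧ b ≤ g + 1)) → ∃ A : ℕ, ∀ (K : Type) [Field K] [NumberField K]
  (L : Type) [Field L] [NumberField L] [Algebra K L] (f : K[X]) (a : L)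
  (α : Fin (2 * h + 2) → L), IsHyperelliptic h f → a ≠ 0 → Function.Injective α →
  f.map (algebraMap K L) = C a * ∏ j, (X - C (α j)) →
  ∀ (T₁ T₂ : Finset (Fin (2 * h + 2))) (q₁ q₂ : K[X]), Disjoint T₁ T₂ → T₁.card = 2 →
  T₂.card = b → q₁.map (algebraMap K L) = ∏ j ∈ T₁, (X - C (α j)) →
  q₂.map (algebraMap K L) = ∏ j ∈ T₂, (X - C (α j)) → Seen g h A f α (T₁ ∪ T₂)

/-- DIRE (from `FF.S_TMC`, `FF.S_CR6`). `D = C e * q`, `A = 4 (2h+2) + 4g + 4`. -/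
def S_DIRE : Prop := ∀ (g h : ℕ), 1 ≤ g → 1 ≤ h → ∃ A : ℕ, ∀ (K : Type) [Field K]
  [NumberField K] (L : Type) [Field L] [NumberField L] [Algebra K L] (f : K[X]) (a : L)
  (α : Fin (2 * h + 2) → L), IsHyperelliptic h f → a ≠ 0 → Function.Injective α →
  f.map (algebraMap K L) = C a * ∏ j, (X - C (α j)) →
  ∀ (T : Finset (Fin (2 * h + 2))) (q : K[X]), T.card = 2 * g + 2 →
  q.map (algebraMap K L) = ∏ j ∈ T, (X - C (α j)) → Seen g h A f α T

/-- ADMP (from PAIR, DIRE, MONO). The three cases of `Adm`; `T₁ ∪ T₂ = T₂ ∪ T₁`. -/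
def S_ADMP : Prop := ∀ (g h a₁ a₂ : ℕ), 1 ≤ g → 1 ≤ h → 2 ≤ a₁ → 2 ≤ a₂ → Adm g a₁ a₂ →
  ∃ A : ℕ, ∀ (K : Type) [Field K] [NumberField K]
  (L : Type) [Field L] [NumberField L] [Algebra K L] (f : K[X]) (a : L)
  (α : Fin (2 * h + 2) → L), IsHyperelliptic h f → a ≠ 0 → Function.Injective α →
  f.map (algebraMap K L) = C a * ∏ j, (X - C (α j)) →
  ∀ (T₁ T₂ : Finset (Fin (2 * h + 2))) (q₁ q₂ : K[X]), Disjoint T₁ T₂ → T₁.card = a₁ →
  T₂.card = a₂ → q₁.map (algebraMap K L) = ∏ j ∈ T₁, (X - C (α j)) →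
  q₂.map (algebraMap K L) = ∏ j ∈ T₂, (X - C (α j)) → Seen g h A f α (T₁ ∪ T₂)

/-! ### blocks -/

/-- BLK. `s i`, `c i` = the numbers of elements of the block `i` in `S`, in `Sᶜ`; `s i + c i ≥ 2`.
(a) Some `s i ≥ 2`. If `c j ≥ 2` for some `j ≠ i` take `{i, j}`. So assume `c j ≤ 1`, hence
`s j ≥ 1`, for all `j ≠ i`. If `c i ≥ 2`: take `{i, j}` for any `j ≠ i`. If `c i = 1`: as `∑ c ≥ 2` there is `j ≠ i` with `c j = 1`: take `{i, j}`. If
`c i = 0`: there are two `j, l ≠ i`, `j ≠ l` with `c j = c l = 1`, `s j, s l ≥ 1`: take `{j, l}`.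
(b) Some `c i ≥ 2`: symmetric. (c) All `s i, c i ≤ 1`, so all are `1`: take any two. -/
def S_BLK : Prop := ∀ (n r : ℕ) (β : Fin n → Fin r), 2 ≤ r →
  (∀ i, 2 ≤ (Finset.univ.filter fun x => β x = i).card) →
  ∀ S : Finset (Fin n), 2 ≤ S.card → 2 ≤ Sᶜ.card → ∃ i j, i ≠ j ∧
    2 ≤ (((Finset.univ.filter fun x => β x = i) ∪ (Finset.univ.filter fun x => β x = j)) ∩ S).card ∧
    2 ≤ (((Finset.univ.filter fun x => β x = i) ∪ (Finset.univ.filter fun x => β x = j)) \ S).card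

/-- FACB. The root `α j` is a root of exactly one `F i` (separability): `β j = i`. Over `L`
`F i = C (leading coefficient) * ∏_{β j = i} (X - α j)`, `q = C (1/leading coefficient) * F i`. -/
def S_FACB : Prop := ∀ (K L : Type) [Field K] [NumberField K] [Field L] [NumberField L]
  [Algebra K L] (n r : ℕ) (m : Fin r → ℕ) (F : Fin r → K[X]), (∏ i, F i).Separable →
  (∀ i, (F i).natDegree = m i) → ∑ i, m i = n → ∀ a : L, a ≠ 0 → ∀ α : Fin n → L,
  Function.Injective α → (∏ i, F i).map (algebraMap K L) = C a * ∏ j, (X - C (α j)) →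
  ∃ β : Fin n → Fin r, ∀ i, (Finset.univ.filter fun x => β x = i).card = m i ∧
    ∃ q : K[X], q.map (algebraMap K L) =
      ∏ j ∈ Finset.univ.filter (fun x => β x = i), (X - C (α j))

/-- NRM. `t ∈ K` with `(∏ F i).eval t ≠ 0` (`exists_nonroot`), `F' i = reflect (m i) (taylor t (F i))`:
its degree is `m i` as `(F i).eval t ≠ 0`; `∏ F' i = flip h t (∏ F i)` (`reflect_mul`, induction
over subsets; or compare the values at all `x ≠ 0` with `eval_reflect`); `flip_hyper`, `MC_flip`,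
`DeltaC_flip`. -/
def S_NRM : Prop := ∀ (K : Type) [Field K] [NumberField K] (h r : ℕ) (m : Fin r → ℕ)
  (F : Fin r → K[X]), 1 ≤ h → IsHyperelliptic h (∏ i, F i) → (∀ i, (F i).natDegree ≤ m i) →
  ∑ i, m i = 2 * h + 2 → ∃ F' : Fin r → K[X], (∀ i, (F' i).natDegree = m i) ∧
    IsHyperelliptic h (∏ i, F' i) ∧ (∏ i, F' i).natDegree = 2 * h + 2 ∧
    MC h (∏ i, F' i) = MC h (∏ i, F i) ∧ DeltaC h (∏ i, F' i) = DeltaC h (∏ i, F i)

/-- the result -/
def S_FIN2 : Prop := ∀ (g h r : ℕ) (m : Fin r → ℕ), 1 ≤ g → 1 ≤ h → 2 ≤ r → (∀ i, 2 ≤ m i) →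
  ∑ i, m i = 2 * h + 2 → (∀ i j, i ≠ j → Adm g (m i) (m j)) →
  ∃ A : ℕ, ∀ (K : Type) [Field K] [NumberField K] (F : Fin r → K[X]),
    (∀ i, (F i).natDegree ≤ m i) → IsHyperelliptic h (∏ i, F i) →
    ∃ D : K[X], IsHyperelliptic g D ∧
      MC g D ≤ (A ^ Module.finrank ℚ K * (discr K).natAbs * MC h (∏ i, F i)) ^ A ∧
      DeltaC h (∏ i, F i) ≤
        (A ^ Module.finrank ℚ K * (discr K).natAbs * MC h (∏ i, F i) * DeltaC g D) ^ A

end Pool.Agent.Lib.MP_ca2859_nt.CC
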