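import Pool.Agent.Lib.MP_ca2859_nt.CC.Merge2
import Pool.Agent.Lib.MP_ca2859_nt.CC.P.BEL
import Pool.Agent.Lib.MP_ca2859_nt.CC.P.BLK
import Pool.Agent.Lib.MP_ca2859_nt.CC.P.BND
import Pool.Agent.Lib.MP_ca2859_nt.CC.P.CDJ
import Pool.Agent.Lib.MP_ca2859_nt.CC.P.CLS
import Pool.Agent.Lib.MP_ca2859_nt.CC.P.COVE
import Pool.Agent.Lib.MP_ca2859_nt.CC.P.CRD
import Pool.Agent.Lib.MP_ca2859_nt.CC.P.CRP
import Pool.Agent.Lib.MP_ca2859_nt.CC.P.DIRE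
import Pool.Agent.Lib.MP_ca2859_nt.CC.P.DSUB
import Pool.Agent.Lib.MP_ca2859_nt.CC.P.FACB
import Pool.Agent.Lib.MP_ca2859_nt.CC.P.FACT
import Pool.Agent.Lib.MP_ca2859_nt.CC.P.FINI
import Pool.Agent.Lib.MP_ca2859_nt.CC.P.FRP
import Pool.Agent.Lib.MP_ca2859_nt.CC.P.GSS
import Pool.Agent.Lib.MP_ca2859_nt.CC.P.HYP
import Pool.Agent.Lib.MP_ca2859_nt.CC.P.LOCD
import Pool.Agent.Lib.MP_ca2859_nt.CC.P.LOCW
import Pool.Agent.Lib.MP_ca2859_nt.CC.P.MCD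
import Pool.Agent.Lib.MP_ca2859_nt.CC.P.MINK
import Pool.Agent.Lib.MP_ca2859_nt.CC.P.MKN
import Pool.Agent.Lib.MP_ca2859_nt.CC.P.MKS
import Pool.Agent.Lib.MP_ca2859_nt.CC.P.MONO
import Pool.Agent.Lib.MP_ca2859_nt.CC.P.NRM
import Pool.Agent.Lib.MP_ca2859_nt.CC.P.PAIR
import Pool.Agent.Lib.MP_ca2859_nt.CC.P.RTS
import Pool.Agent.Lib.MP_ca2859_nt.CC.P.TAU
import Pool.Agent.Lib.MP_ca2859_nt.CC.P.TRL
import Pool.Agent.Lib.MP_ca2859_nt.CC.P.UNIT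
import Pool.Agent.Lib.MP_ca2859_nt.CC.P.VALC

/-!
# Fixed field theorem, cyclic covers: all pieces put together
-/

set_option autoImplicit false

open Polynomial WithZero IsDedekindDomain NumberField
open Pool.Agent.Lib.MP_ca2859_nt Pool.Agent.Lib.MP_ca2859_nt.GR Pool.Agent.Lib.MP_ca2859_nt.FF

namespace Pool.Agent.Lib.MP_ca2859_nt.CC

theorem all_FRP : S_FRP := piece_FRP piece_RTS

theorem all_MKN : S_MKN := piece_MKN piece_CLS piece_BEL piece_TAU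

theorem all_MINK : S_MINK := piece_MINK (piece_MKS piece_CLS) all_MKN piece_DSUB

theorem all_CDJ : S_CDJ := piece_CDJ piece_RTS all_FRP all_MINK

theorem all_LOCD : S_LOCD := piece_LOCD piece_FACT piece_LOCW piece_GSS piece_UNIT

theorem all_MCD : S_MCD := piece_MCD piece_RTS all_FRP all_CDJ piece_COVE piece_FACT piece_HYP
  all_LOCD piece_FINI piece_BND all_GLOB

theorem all_CRD : S_CRD := piece_CRD piece_COVE piece_FACT piece_HYP piece_CRP piece_VALC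

theorem all_PAIR : S_PAIR := piece_PAIR all_MCD all_CRD piece_TRL

theorem all_DIRE : S_DIRE := piece_DIRE all_TMC piece_CR6

theorem all_BLOCKS : S_BLOCKS := fun g h hg hh => main_blocks all_ASML piece_ASMG all_PAIR all_DIRE
  piece_MONO piece_BLK piece_FACB piece_NRM g h hg hh

theorem main_all2 (g h D : ℕ) (hg : 1 ≤ g) (hh : 1 ≤ h) (hD : 1 ≤ D) :
    ∃ A : ℕ, ∀ (K : Type) [Field K] [NumberField K] (f : K[X]) (Δ M : ℕ), IsCurve h f Δ M →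
      (∀ p : K[X], Irreducible p → p ∣ f → p.natDegree ≤ D) →
      ∃ (g' : ℕ) (f' : K[X]) (Δ' M' : ℕ), IsCurve g' f' Δ' M' ∧
        M' ≤ (A ^ Module.finrank ℚ K * (discr K).natAbs * M) ^ A ∧
        Δ ≤ (A ^ Module.finrank ℚ K * (discr K).natAbs * M * Δ') ^ A ∧
        ((g' = g ∧ (g = 1 → ∀ p : K[X], Irreducible p → p ∣ f' → p.natDegree ≤ D)) ∨
          (¬ Blocks g h f ∧ ¬ Blocks g g' f' ∧ (g' = 1 → g = 2) ∧ g' ≤ h ∧
            2 * g' ≤ 3 * (D - 1) ∧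
            Multiset.card (UniqueFactorizationMonoid.factors f') + (2 * g' + 2 - f'.natDegree) ≤ 4 ∧
            ∀ p : K[X], Irreducible p → p ∣ f' → p.natDegree ≤ D)) :=
  merge2 all_BLOCKS g h D hg hh hD

end Pool.Agent.Lib.MP_ca2859_nt.CC
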