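import Pool.Agent.Lib.MP_ca2859_nt.CC.Asm
import Pool.Agent.Lib.MP_ca2859_nt.FF.Main

/-!
# Fixed field theorem: the final form with admissible blocks
-/

set_option autoImplicit false

open Polynomial WithZero IsDedekindDomain NumberField
open Pool.Agent.Lib.MP_ca2859_nt Pool.Agent.Lib.MP_ca2859_nt.GR Pool.Agent.Lib.MP_ca2859_nt.FF

namespace Pool.Agent.Lib.MP_ca2859_nt.CC

theorem mono_B (A A' n d m : ℕ) (hA : A ≤ A') (hA' : 1 ≤ A') (hd : 1 ≤ d) (hm : 1 ≤ m) :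
    (A ^ n * d * m) ^ A ≤ (A' ^ n * d * m) ^ A' := by
  have h1 : 1 ≤ A' ^ n * d * m := Nat.mul_pos (Nat.mul_pos (Nat.one_le_pow _ _ hA') hd) hm
  refine (Nat.pow_le_pow_left ?_ A).trans (Nat.pow_le_pow_right h1 hA)
  exact Nat.mul_le_mul_right _ (Nat.mul_le_mul_right _ (Nat.pow_le_pow_left hA n))

theorem mono_C (A A' n d m e : ℕ) (hA : A ≤ A') (hA' : 1 ≤ A') (hd : 1 ≤ d) (hm : 1 ≤ m)
    (he : 1 ≤ e) : (A ^ n * d * m * e) ^ A ≤ (A' ^ n * d * m * e) ^ A' := by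
  have h1 : 1 ≤ A' ^ n * d * m * e :=
    Nat.mul_pos (Nat.mul_pos (Nat.mul_pos (Nat.one_le_pow _ _ hA') hd) hm) he
  refine (Nat.pow_le_pow_left ?_ A).trans (Nat.pow_le_pow_right h1 hA)
  exact Nat.mul_le_mul_right _ (Nat.mul_le_mul_right _ (Nat.mul_le_mul_right _
    (Nat.pow_le_pow_left hA n)))

theorem mono_A (A A' n d m : ℕ) (hA : A ≤ A') (hA' : 1 ≤ A') (hd : 1 ≤ d) (hm : 1 ≤ m) :
    A ^ n * d * m ≤ (A' ^ n * d * m) ^ A' := by
  refine (Nat.mul_le_mul_right _ (Nat.mul_le_mul_right _ (Nat.pow_le_pow_left hA n))).trans ?_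
  exact Nat.le_self_pow (by omega) _

theorem isCurve_pos {K : Type} [Field K] [NumberField K] {g : ℕ} {f : K[X]} {Δ M : ℕ}
    (h : IsCurve g f Δ M) : 1 ≤ Δ ∧ 1 ≤ M := by
  rcases h with ⟨-, W, hW, -, rfl, rfl⟩ | ⟨-, hf, rfl, rfl⟩
  · refine ⟨?_, ?_⟩
    · rw [DeltaE_eq_PP]; exact GR.PP_pos _ (finite_badE W hW)
    · rw [ME_eq_PR]; exact GR.PR_pos _ (finite_badE W hW)
  · refine ⟨?_, ?_⟩
    · rw [DeltaC_eq_PP]; exact GR.PP_pos _ (finite_bad g f hf)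
    · rw [MC_eq_PR]; exact GR.PR_pos _ (finite_bad g f hf)

/-- one constant for all block sizes -/
theorem main_blocks (hASML : FF.S_ASML) (hASMG : FF.S_ASMG) (hPAIR : S_PAIR) (hDIRE : S_DIRE)
    (hMONO : S_MONO) (hBLK : S_BLK) (hFACB : S_FACB) (hNRM : S_NRM) (g h : ℕ) (hg : 1 ≤ g)
    (hh : 1 ≤ h) :
    ∃ A : ℕ, ∀ (K : Type) [Field K] [NumberField K] (f : K[X]), IsHyperelliptic h f →
    Blocks g h f → ∃ D : K[X], IsHyperelliptic g D ∧
      MC g D ≤ (A ^ Module.finrank ℚ K * (discr K).natAbs * MC h f) ^ A ∧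
      DeltaC h f ≤ (A ^ Module.finrank ℚ K * (discr K).natAbs * MC h f * DeltaC g D) ^ A := by
  classical
  have hc : ∀ (r : ℕ) (m : Fin r → ℕ), ∃ c : ℕ, (∀ i, 2 ≤ m i) → ∑ i, m i = 2 * h + 2 →
      AdmF g m → ∀ (K : Type) [Field K] [NumberField K] (F : Fin r → K[X]),
      (∀ i, (F i).natDegree ≤ m i) → IsHyperelliptic h (∏ i, F i) →
      ∃ D : K[X], IsHyperelliptic g D ∧
      MC g D ≤ (c ^ Module.finrank ℚ K * (discr K).natAbs * MC h (∏ i, F i)) ^ c ∧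
      DeltaC h (∏ i, F i) ≤
        (c ^ Module.finrank ℚ K * (discr K).natAbs * MC h (∏ i, F i) * DeltaC g D) ^ c := by
    intro r m
    by_cases h1 : (∀ i, 2 ≤ m i) ∧ ∑ i, m i = 2 * h + 2 ∧ AdmF g m
    · obtain ⟨A, hA⟩ := main_fin2 hASML hASMG hPAIR hDIRE hMONO hBLK hFACB hNRM g h r m hg hh
        h1.1 h1.2.1 h1.2.2
      exact ⟨A, fun _ _ _ => hA⟩
    · exact ⟨0, fun h2 h3 h4 => absurd ⟨h2, h3, h4⟩ h1⟩
  choose c hc using hc
  refine ⟨1 + ∑ r ∈ Finset.range (h + 2), ∑ m : Fin r → Fin (2 * h + 3),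
    c r (fun i => (m i : ℕ)), fun K _ _ f hf hB => ?_⟩
  obtain ⟨r, m, F, rfl, hm, hsum, hadm⟩ := hB
  have hmi : ∀ i, m i ≤ 2 * h + 2 := fun i => by
    rw [← hsum]
    exact Finset.single_le_sum (f := m) (fun _ _ => Nat.zero_le _) (Finset.mem_univ i)
  have hr : r < h + 2 := by
    have h1 : ∑ _i : Fin r, 2 ≤ ∑ i, m i := Finset.sum_le_sum fun i _ => (hm i).1
    rw [Finset.sum_const, Finset.card_univ, Fintype.card_fin, smul_eq_mul, hsum] at h1
    omega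
  have hle : c r m ≤ 1 + ∑ r ∈ Finset.range (h + 2), ∑ m : Fin r → Fin (2 * h + 3),
      c r (fun i => (m i : ℕ)) := by
    refine le_trans ?_ (Nat.le_add_left _ _)
    refine le_trans ?_ (Finset.single_le_sum (f := fun r => ∑ m : Fin r → Fin (2 * h + 3),
      c r (fun i => (m i : ℕ))) (fun _ _ => Nat.zero_le _) (Finset.mem_range.2 hr))
    exact Finset.single_le_sum (f := fun m : Fin r → Fin (2 * h + 3) => c r (fun i => (m i : ℕ)))
      (fun _ _ => Nat.zero_le _) (Finset.mem_univ (fun i => ⟨m i, by have := hmi i; omega⟩))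
  obtain ⟨D, hD, h1, h2⟩ := hc r m (fun i => (hm i).1) hsum hadm K F (fun i => (hm i).2) hf
  have hMC1 : 1 ≤ MC h (∏ i, F i) := by rw [MC_eq_PR]; exact PR_pos _ (finite_bad h _ hf)
  have hDC : 1 ≤ DeltaC g D := by
    rw [DeltaC_eq_PP]; exact GR.PP_pos _ (finite_bad g D hD)
  exact ⟨D, hD, h1.trans (mono_B _ _ _ _ _ hle (by omega) (one_le_discr K) hMC1),
    h2.trans (mono_C _ _ _ _ _ _ hle (by omega) (one_le_discr K) hMC1 hDC)⟩

/-- blocks of two elements -/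
theorem deg_le_two {K : Type} [Field K] {r : ℕ} (m : Fin r → ℕ) (F : Fin r → K[X])
    (hm : ∀ i, m i ≤ 2) (hF : ∀ i, (F i).natDegree ≤ m i) (hF0 : ∏ i, F i ≠ 0) (p : K[X])
    (hp : Irreducible p) (hpd : p ∣ ∏ i, F i) : p.natDegree ≤ 2 := by
  obtain ⟨i, -, hi⟩ := (hp.prime.dvd_finset_prod_iff _).1 hpd
  have h0 : F i ≠ 0 := fun h => hF0 (Finset.prod_eq_zero (Finset.mem_univ i) h)
  exact (natDegree_le_of_dvd hi h0).trans ((hF i).trans (hm i))

/-- if `g = 1 < h` or `g = 2`, `h = 1`, admissible blocks have at most two elements -/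
theorem blocks_small {g h r : ℕ} (m : Fin r → ℕ) (hgh : (g = 1 ∧ 2 ≤ h) ∨ (g = 2 ∧ h = 1))
    (hm : ∀ i, 2 ≤ m i) (hsum : ∑ i, m i = 2 * h + 2) (hadm : AdmF g m) (i : Fin r) :
    m i ≤ 2 := by
  classical
  by_contra hcon
  push Not at hcon
  -- a set containing a block of size two and `i`
  have hl : ∀ J : Finset (Fin r), i ∈ J → ∀ l ∈ J, m l = 2 → m i ≤ ∑ x ∈ J.erase l, m x := by
    intro J hi l _ hml
    refine Finset.single_le_sum (f := m) (fun _ _ => Nat.zero_le _) ?_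
    rw [Finset.mem_erase]
    refine ⟨?_, hi⟩
    rintro rfl
    omega
  have hle : ∀ J : Finset (Fin r), ∑ x ∈ J, m x ≤ 2 * h + 2 := by
    intro J
    rw [← hsum]
    exact Finset.sum_le_sum_of_subset (Finset.subset_univ J)
  have hpair : ∀ J : Finset (Fin r), ∀ j, j ≠ i → i ∈ J → j ∈ J → m i + m j ≤ ∑ x ∈ J, m x := by
    intro J j hj hi hjJ
    have h1 : ({i, j} : Finset (Fin r)) ⊆ J := by
      intro x hx
      simp only [Finset.mem_insert, Finset.mem_singleton] at hx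
      rcases hx with rfl | rfl
      · exact hi
      · exact hjJ
    rw [← Finset.sum_pair (f := m) hj.symm]
    exact Finset.sum_le_sum_of_subset h1
  rcases hgh with ⟨rfl, hh⟩ | ⟨rfl, rfl⟩
  · have key : ∀ J : Finset (Fin r), i ∈ J →
        (∑ x ∈ J, m x = 2 * 1 + 2 ∨ ∃ l ∈ J, m l = 2 ∧ Dv 1 (∑ x ∈ J.erase l, m x)) →
        ∑ x ∈ J, m x = 4 := by
      intro J hi hJ
      rcases hJ with hJ | ⟨l, hlJ, hml, hdv⟩
      · omega
      · exfalso
        have h1 := hl J hi l hlJ hml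
        rcases hdv with h2 | ⟨-, h2⟩
        · have := Nat.le_of_dvd (by norm_num) h2
          omega
        · omega
    by_cases hj : ∃ j, j ≠ i
    · obtain ⟨j, hj⟩ := hj
      obtain ⟨J, hi, hjJ, hJ⟩ := hadm i j
      have h1 := key J hi hJ
      have h2 := hpair J j hj hi hjJ
      have h3 := hm j
      omega
    · push Not at hj
      obtain ⟨J, hi, -, hJ⟩ := hadm i i
      have h1 := key J hi hJ
      have h2 : ∑ x, m x = m i := by
        rw [Finset.sum_eq_single i]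
        · intro x _ hx
          exact absurd (hj x) hx
        · intro h
          exact absurd (Finset.mem_univ i) h
      have h3 : m i ≤ ∑ x ∈ J, m x :=
        Finset.single_le_sum (f := m) (fun _ _ => Nat.zero_le _) hi
      omega
  · obtain ⟨J, hi, -, hJ⟩ := hadm i i
    have h0 := hle J
    rcases hJ with hJ | ⟨l, hlJ, hml, -⟩
    · omega
    · have hli : l ≠ i := by
        rintro rfl
        omega
      have h2 := hpair J l hli hi hlJ
      omega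

theorem blocks_deg {K : Type} [Field K] {g h : ℕ} (hgh : (g = 1 ∧ 2 ≤ h) ∨ (g = 2 ∧ h = 1))
    (f : K[X]) (hf : f ≠ 0) (hB : Blocks g h f) (p : K[X]) (hp : Irreducible p) (hpd : p ∣ f) :
    p.natDegree ≤ 2 := by
  obtain ⟨r, m, F, rfl, hm, hsum, hadm⟩ := hB
  exact deg_le_two m F (fun i => blocks_small m hgh (fun i => (hm i).1) hsum hadm i)
    (fun i => (hm i).2) hf p hp hpd

theorem isCurve_ne {K : Type} [Field K] [NumberField K] {g : ℕ} {f : K[X]} {Δ M : ℕ}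
    (h : IsCurve g f Δ M) : f ≠ 0 := by
  rcases h with ⟨-, W, hW, rfl, -, -⟩ | ⟨-, hf, -, -⟩
  · intro h0
    have := main_cubic_deg W
    rw [h0, natDegree_zero] at this
    omega
  · rintro rfl
    exact not_separable_zero hf.1

/-- The merged theorem. -/
theorem main_merge
    (hALL : ∀ (g h D : ℕ), 1 ≤ g → 1 ≤ h → 1 ≤ D → (g = 2 → D ≤ 2) →
      ∃ A : ℕ, ∀ (K : Type) [Field K] [NumberField K] (f : K[X]) (Δ M : ℕ), IsCurve h f Δ M →
      (∀ p : K[X], Irreducible p → p ∣ f → p.natDegree ≤ D) →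
      ∃ (g' : ℕ) (f' : K[X]) (Δ' M' : ℕ), IsCurve g' f' Δ' M' ∧
        M' ≤ A ^ Module.finrank ℚ K * (discr K).natAbs * M ∧
        Δ ≤ (A ^ Module.finrank ℚ K * (discr K).natAbs * M * Δ') ^ A ∧
        ((g' = g ∧ (g = 1 → ∀ p : K[X], Irreducible p → p ∣ f' → p.natDegree ≤ D)) ∨
          (2 ≤ g' ∧ g' ≤ h ∧ 2 * g' ≤ 3 * (D - 1) ∧ f'.natDegree = 2 * g' + 2 ∧
            Multiset.card (UniqueFactorizationMonoid.factors f') ≤ 4 ∧
            ∀ p : K[X], Irreducible p → p ∣ f' → p.natDegree ≤ D)))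
    (hBLOCKS : ∀ (g h : ℕ), 1 ≤ g → 1 ≤ h → ∃ A : ℕ, ∀ (K : Type) [Field K] [NumberField K]
      (f : K[X]), IsHyperelliptic h f → Blocks g h f → ∃ D : K[X], IsHyperelliptic g D ∧
      MC g D ≤ (A ^ Module.finrank ℚ K * (discr K).natAbs * MC h f) ^ A ∧
      DeltaC h f ≤ (A ^ Module.finrank ℚ K * (discr K).natAbs * MC h f * DeltaC g D) ^ A)
    (g h D : ℕ) (hg : 1 ≤ g) (hh : 1 ≤ h) (hD : 1 ≤ D) :
    ∃ A : ℕ, ∀ (K : Type) [Field K] [NumberField K] (f : K[X]) (Δ M : ℕ), IsCurve h f Δ M →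
      (∀ p : K[X], Irreducible p → p ∣ f → p.natDegree ≤ D) →
      (g = 2 → D ≤ 2 ∨ Blocks g h f) →
      ∃ (g' : ℕ) (f' : K[X]) (Δ' M' : ℕ), IsCurve g' f' Δ' M' ∧
        M' ≤ (A ^ Module.finrank ℚ K * (discr K).natAbs * M) ^ A ∧
        Δ ≤ (A ^ Module.finrank ℚ K * (discr K).natAbs * M * Δ') ^ A ∧
        ((g' = g ∧ (g = 1 → ∀ p : K[X], Irreducible p → p ∣ f' → p.natDegree ≤ D)) ∨
          (¬ Blocks g h f ∧ 2 ≤ g' ∧ g' ≤ h ∧ 2 * g' ≤ 3 * (D - 1) ∧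
            f'.natDegree = 2 * g' + 2 ∧
            Multiset.card (UniqueFactorizationMonoid.factors f') ≤ 4 ∧
            ∀ p : K[X], Irreducible p → p ∣ f' → p.natDegree ≤ D)) := by
  classical
  obtain ⟨A₁, hA₁⟩ : ∃ A : ℕ, (g = 2 → D ≤ 2) → ∀ (K : Type) [Field K] [NumberField K]
      (f : K[X]) (Δ M : ℕ), IsCurve h f Δ M →
      (∀ p : K[X], Irreducible p → p ∣ f → p.natDegree ≤ D) →
      ∃ (g' : ℕ) (f' : K[X]) (Δ' M' : ℕ), IsCurve g' f' Δ' M' ∧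
        M' ≤ A ^ Module.finrank ℚ K * (discr K).natAbs * M ∧
        Δ ≤ (A ^ Module.finrank ℚ K * (discr K).natAbs * M * Δ') ^ A ∧
        ((g' = g ∧ (g = 1 → ∀ p : K[X], Irreducible p → p ∣ f' → p.natDegree ≤ D)) ∨
          (2 ≤ g' ∧ g' ≤ h ∧ 2 * g' ≤ 3 * (D - 1) ∧ f'.natDegree = 2 * g' + 2 ∧
            Multiset.card (UniqueFactorizationMonoid.factors f') ≤ 4 ∧
            ∀ p : K[X], Irreducible p → p ∣ f' → p.natDegree ≤ D)) := by
    by_cases h1 : g = 2 → D ≤ 2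
    · obtain ⟨A, hA⟩ := hALL g h D hg hh hD h1
      exact ⟨A, fun _ => hA⟩
    · exact ⟨0, fun h2 => absurd h2 h1⟩
  obtain ⟨A₂, hA₂⟩ := hALL g h (min D 2) hg hh (le_min hD (by norm_num)) (fun _ => min_le_right _ _)
  obtain ⟨A₃, hA₃⟩ := hBLOCKS g h hg hh
  refine ⟨A₁ + A₂ + A₃ + 1, fun K _ _ f Δ M hC hdeg hg2 => ?_⟩
  have hd1 := one_le_discr K
  obtain ⟨hΔ1, hM1⟩ := isCurve_pos hC
  by_cases hB : Blocks g h f
  · by_cases hcase : 2 ≤ g ∧ 2 ≤ h
    · rcases hC with ⟨h1, -⟩ | ⟨-, hf, rfl, rfl⟩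
      · omega
      obtain ⟨f', hf', h3, h4⟩ := hA₃ K f hf hB
      have hDC : 1 ≤ DeltaC g f' := by
        rw [DeltaC_eq_PP]; exact GR.PP_pos _ (finite_bad g f' hf')
      exact ⟨g, f', DeltaC g f', MC g f', Or.inr ⟨hcase.1, hf', rfl, rfl⟩,
        h3.trans (mono_B _ _ _ _ _ (by omega) (by omega) hd1 hM1),
        h4.trans (mono_C _ _ _ _ _ _ (by omega) (by omega) hd1 hM1 hDC),
        Or.inl ⟨rfl, fun h => by omega⟩⟩
    · -- small cases
      by_cases hsm : (g = 1 ∧ 2 ≤ h) ∨ (g = 2 ∧ h = 1)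
      · obtain ⟨g', f', Δ', M', h3, h4, h5, h6⟩ := hA₂ K f Δ M hC (fun p hp hpd =>
          le_min (hdeg p hp hpd) (blocks_deg hsm f (isCurve_ne hC) hB p hp hpd))
        obtain ⟨hΔ', -⟩ := isCurve_pos h3
        refine ⟨g', f', Δ', M', h3, h4.trans (mono_A _ _ _ _ _ (by omega) (by omega) hd1 hM1),
          h5.trans (mono_C _ _ _ _ _ _ (by omega) (by omega) hd1 hM1 hΔ'), ?_⟩
        rcases h6 with ⟨h6, h7⟩ | ⟨h6, h7, h8, -⟩
        · exact Or.inl ⟨h6, fun h p hp hpd => (h7 h p hp hpd).trans (min_le_left _ _)⟩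
        · exfalso
          have := min_le_right D 2
          omega
      · have hh1 : h = 1 := by omega
        have hg3 : g ≠ 2 := by omega
        obtain ⟨g', f', Δ', M', h3, h4, h5, h6⟩ := hA₁ (fun h => absurd h hg3) K f Δ M hC hdeg
        obtain ⟨hΔ', -⟩ := isCurve_pos h3
        refine ⟨g', f', Δ', M', h3, h4.trans (mono_A _ _ _ _ _ (by omega) (by omega) hd1 hM1),
          h5.trans (mono_C _ _ _ _ _ _ (by omega) (by omega) hd1 hM1 hΔ'), ?_⟩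
        rcases h6 with h6 | ⟨h6, h7, -⟩
        · exact Or.inl h6
        · omega
  · have h2 : g = 2 → D ≤ 2 := fun h => (hg2 h).resolve_right hB
    obtain ⟨g', f', Δ', M', h3, h4, h5, h6⟩ := hA₁ h2 K f Δ M hC hdeg
    obtain ⟨hΔ', -⟩ := isCurve_pos h3
    refine ⟨g', f', Δ', M', h3, h4.trans (mono_A _ _ _ _ _ (by omega) (by omega) hd1 hM1),
      h5.trans (mono_C _ _ _ _ _ _ (by omega) (by omega) hd1 hM1 hΔ'), ?_⟩
    rcases h6 with h6 | h6
    · exact Or.inl h6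
    · exact Or.inr ⟨hB, h6⟩

end Pool.Agent.Lib.MP_ca2859_nt.CC
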