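import Pool.Agent.Lib.MP_ca2859_nt.CC.Stm
import Pool.Agent.Lib.MP_ca2859_nt.CC.Dec
import Pool.Agent.Lib.MP_ca2859_nt.FF.Fin

/-!
# Fixed field theorem: parts 1 and 2 put together
-/

set_option autoImplicit false

open Polynomial WithZero IsDedekindDomain NumberField
open Pool.Agent.Lib.MP_ca2859_nt Pool.Agent.Lib.MP_ca2859_nt.GR Pool.Agent.Lib.MP_ca2859_nt.FF

namespace Pool.Agent.Lib.MP_ca2859_nt.CC

/-! ### arithmetic -/

theorem mrg_mono (A B n d M : ℕ) (hAB : A ≤ B) (hB : 1 ≤ B) (hd : 1 ≤ d) (hM : 1 ≤ M) :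
    (A ^ n * d * M) ^ A ≤ (B ^ n * d * M) ^ B := by
  have h1 : 1 ≤ B ^ n * d * M := Nat.mul_pos (Nat.mul_pos (Nat.pow_pos hB) hd) hM
  calc (A ^ n * d * M) ^ A ≤ (B ^ n * d * M) ^ A :=
        Nat.pow_le_pow_left (Nat.mul_le_mul_right _ (Nat.mul_le_mul_right _
          (Nat.pow_le_pow_left hAB _))) _
    _ ≤ (B ^ n * d * M) ^ B := Nat.pow_le_pow_right h1 hAB

theorem mrg_comp (A₁ A₂ n d M M₁ M₂ Δ Δ₁ Δ₂ : ℕ) (hA₁ : 1 ≤ A₁) (hA₂ : 1 ≤ A₂) (hd : 1 ≤ d)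
    (hM : 1 ≤ M) (hΔ₂ : 1 ≤ Δ₂) (h1 : M₁ ≤ A₁ ^ n * d * M)
    (h2 : Δ ≤ (A₁ ^ n * d * M * Δ₁) ^ A₁) (h3 : M₂ ≤ (A₂ ^ n * d * M₁) ^ A₂)
    (h4 : Δ₁ ≤ (A₂ ^ n * d * M₁ * Δ₂) ^ A₂) :
    M₂ ≤ ((A₁ * A₂ + 2 * A₂ + (2 * A₂ + 1) * A₁) ^ n * d * M) ^
        (A₁ * A₂ + 2 * A₂ + (2 * A₂ + 1) * A₁) ∧
      Δ ≤ ((A₁ * A₂ + 2 * A₂ + (2 * A₂ + 1) * A₁) ^ n * d * M * Δ₂) ^
        (A₁ * A₂ + 2 * A₂ + (2 * A₂ + 1) * A₁) := by
  set A : ℕ := A₁ * A₂ + 2 * A₂ + (2 * A₂ + 1) * A₁ with hA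
  set Y : ℕ := (A₁ * A₂) ^ n * d * M with hY
  have hAA : 1 ≤ A₁ * A₂ := Nat.mul_pos hA₁ hA₂
  have hY1 : 1 ≤ Y := Nat.mul_pos (Nat.mul_pos (Nat.pow_pos hAA) hd) hM
  have hYA : Y ≤ A ^ n * d * M := Nat.mul_le_mul_right _ (Nat.mul_le_mul_right _
    (Nat.pow_le_pow_left (by omega) _))
  have hsq : A₂ ^ n * d * M₁ ≤ Y ^ 2 := by
    calc A₂ ^ n * d * M₁ ≤ A₂ ^ n * d * (A₁ ^ n * d * M) := Nat.mul_le_mul_left _ h1
      _ = Y * d := by rw [hY, Nat.mul_pow]; ring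
      _ ≤ Y * Y := Nat.mul_le_mul_left _ (by
          rw [hY]
          calc d = 1 * d * 1 := by ring
            _ ≤ (A₁ * A₂) ^ n * d * M :=
              Nat.mul_le_mul (Nat.mul_le_mul_right _ (Nat.pow_pos hAA)) hM)
      _ = Y ^ 2 := by ring
  have h5 : A₁ ^ n * d * M ≤ Y := by
    rw [hY, Nat.mul_pow]
    refine Nat.mul_le_mul_right _ (Nat.mul_le_mul_right _ ?_)
    exact Nat.le_mul_of_pos_right _ (Nat.pow_pos hA₂)
  constructor
  · calc M₂ ≤ (Y ^ 2) ^ A₂ := h3.trans (Nat.pow_le_pow_left hsq _)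
      _ = Y ^ (2 * A₂) := by rw [← pow_mul]
      _ ≤ Y ^ A := Nat.pow_le_pow_right hY1 (by omega)
      _ ≤ (A ^ n * d * M) ^ A := Nat.pow_le_pow_left hYA _
  · have hYΔ : Y ≤ Y * Δ₂ := Nat.le_mul_of_pos_right _ hΔ₂
    have hYΔ1 : 1 ≤ Y * Δ₂ := hY1.trans hYΔ
    have h6 : Δ₁ ≤ (Y * Δ₂) ^ (2 * A₂) := by
      refine h4.trans ?_
      rw [pow_mul]
      refine Nat.pow_le_pow_left ?_ _
      calc A₂ ^ n * d * M₁ * Δ₂ ≤ Y ^ 2 * Δ₂ := Nat.mul_le_mul_right _ hsq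
        _ ≤ Y ^ 2 * Δ₂ * Δ₂ := Nat.le_mul_of_pos_right _ hΔ₂
        _ = (Y * Δ₂) ^ 2 := by ring
    calc Δ ≤ (A₁ ^ n * d * M * Δ₁) ^ A₁ := h2
      _ ≤ (Y * Δ₂ * (Y * Δ₂) ^ (2 * A₂)) ^ A₁ :=
          Nat.pow_le_pow_left (Nat.mul_le_mul (h5.trans hYΔ) h6) _
      _ = (Y * Δ₂) ^ ((2 * A₂ + 1) * A₁) := by rw [← pow_succ', ← pow_mul]
      _ ≤ (Y * Δ₂) ^ A := Nat.pow_le_pow_right hYΔ1 (by omega)
      _ ≤ (A ^ n * d * M * Δ₂) ^ A := Nat.pow_le_pow_left (Nat.mul_le_mul_right _ hYA) _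

/-! ### invariants are positive -/

theorem curve_pos {K : Type} [Field K] [NumberField K] (g : ℕ) (f : K[X]) (Δ M : ℕ)
    (h : IsCurve g f Δ M) : 1 ≤ Δ ∧ 1 ≤ M := by
  rcases h with ⟨_, W, hW, _, hΔ, hM⟩ | ⟨_, hf, hΔ, hM⟩
  · subst hΔ hM
    refine ⟨?_, ?_⟩
    · rw [DeltaE_eq_PP]; exact GR.PP_pos _ (finite_badE W hW)
    · rw [ME_eq_PR]; exact GR.PR_pos _ (finite_badE W hW)
  · subst hΔ hM
    refine ⟨?_, ?_⟩
    · rw [DeltaC_eq_PP]; exact GR.PP_pos _ (finite_bad g f hf)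
    · rw [MC_eq_PR]; exact GR.PR_pos _ (finite_bad g f hf)

/-! ### one constant for all block sizes -/

theorem fin_dec (h2 : S_FIN2) (g h : ℕ) (hg : 1 ≤ g) (hh : 1 ≤ h) :
    ∃ A : ℕ, 1 ≤ A ∧ ∀ (K : Type) [Field K] [NumberField K] (f : K[X]), IsHyperelliptic h f →
      Decomposes g h f → ∃ D : K[X], IsHyperelliptic g D ∧
      MC g D ≤ (A ^ Module.finrank ℚ K * (discr K).natAbs * MC h f) ^ A ∧
      DeltaC h f ≤
        (A ^ Module.finrank ℚ K * (discr K).natAbs * MC h f * DeltaC g D) ^ A := by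
  classical
  have key : ∀ x : (Σ r : Fin (h + 2), (Fin (r : ℕ) → Fin (2 * h + 3))), ∃ A : ℕ,
      (2 ≤ (x.1 : ℕ) → (∀ i, 2 ≤ (x.2 i : ℕ)) → ∑ i, (x.2 i : ℕ) = 2 * h + 2 →
        (∀ i j, i ≠ j → Adm g (x.2 i) (x.2 j)) →
      ∀ (K : Type) [Field K] [NumberField K] (F : Fin (x.1 : ℕ) → K[X]),
      (∀ i, (F i).natDegree ≤ x.2 i) → IsHyperelliptic h (∏ i, F i) →
      ∃ D : K[X], IsHyperelliptic g D ∧
      MC g D ≤ (A ^ Module.finrank ℚ K * (discr K).natAbs * MC h (∏ i, F i)) ^ A ∧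
      DeltaC h (∏ i, F i) ≤
        (A ^ Module.finrank ℚ K * (discr K).natAbs * MC h (∏ i, F i) * DeltaC g D) ^ A) := by
    intro x
    by_cases hc : 2 ≤ (x.1 : ℕ) ∧ (∀ i, 2 ≤ (x.2 i : ℕ)) ∧ ∑ i, (x.2 i : ℕ) = 2 * h + 2 ∧
        (∀ i j, i ≠ j → Adm g (x.2 i) (x.2 j))
    · obtain ⟨c1, c2, c3, c4⟩ := hc
      obtain ⟨A, hA⟩ := h2 g h x.1 (fun i => (x.2 i : ℕ)) hg hh c1 c2 c3 c4
      exact ⟨A, fun _ _ _ _ => hA⟩
    · exact ⟨0, fun c1 c2 c3 c4 => absurd ⟨c1, c2, c3, c4⟩ hc⟩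
  choose Af hAf using key
  refine ⟨Finset.univ.sup Af + 1, by omega, ?_⟩
  intro K _ _ f hf ⟨r, m, F, hr, hm, hsum, hadm, hdeg, hfF⟩
  have hr' : r < h + 2 := by
    have : ∑ _i : Fin r, 2 ≤ ∑ i, m i := Finset.sum_le_sum fun i _ => hm i
    simp only [Finset.sum_const, Finset.card_univ, Fintype.card_fin, smul_eq_mul] at this
    omega
  have hm' : ∀ i, m i < 2 * h + 3 := by
    intro i
    have := Finset.single_le_sum (f := m) (fun j _ => Nat.zero_le _) (Finset.mem_univ i)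
    omega
  subst hfF
  set x : (Σ r : Fin (h + 2), (Fin (r : ℕ) → Fin (2 * h + 3))) :=
    ⟨⟨r, hr'⟩, fun i => ⟨m i, hm' i⟩⟩ with hx
  obtain ⟨D, hD, hMC, hΔ⟩ := hAf x hr hm hsum hadm K F hdeg hf
  have hle : Af x ≤ Finset.univ.sup Af + 1 :=
    (Finset.le_sup (f := Af) (Finset.mem_univ x)).trans (Nat.le_succ _)
  have hMC1 : 1 ≤ MC h (∏ i, F i) := by
    rw [MC_eq_PR]; exact GR.PR_pos _ (finite_bad h _ hf)
  have hΔ1 : 1 ≤ DeltaC g D := by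
    rw [DeltaC_eq_PP]; exact GR.PP_pos _ (finite_bad g D hD)
  refine ⟨D, hD, hMC.trans (mrg_mono _ _ _ _ _ hle (by omega) (one_le_discr K) hMC1), ?_⟩
  refine hΔ.trans ?_
  have := mrg_mono (Af x) (Finset.univ.sup Af + 1) (Module.finrank ℚ K) (discr K).natAbs
    (MC h (∏ i, F i) * DeltaC g D) hle (by omega) (one_le_discr K) (Nat.mul_pos hMC1 hΔ1)
  rwa [← mul_assoc, ← mul_assoc] at this

/-! ### decomposable curves -/

theorem dec_deg {K : Type} [Field K] (g h : ℕ) (f : K[X]) (hf0 : f ≠ 0) (hd : Decomposes g h f)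
    (hgh : g = 1 ∨ h = 1) : ∀ p : K[X], Irreducible p → p ∣ f → p.natDegree ≤ 2 := by
  obtain ⟨r, m, F, hr, hm, hsum, hadm, hdeg, hfF⟩ := hd
  have hm2 : ∀ i, m i = 2 := by
    intro i
    have hex : ∃ j, j ≠ i := by
      have : 1 < Fintype.card (Fin r) := by rw [Fintype.card_fin]; omega
      exact Fintype.exists_ne_of_one_lt_card this i
    obtain ⟨j, hj⟩ := hex
    have h2 := hm i
    have h3 := hm j
    rcases hgh with hg | hh
    · have ha := hadm i j (Ne.symm hj)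
      subst hg
      rcases ha with ha | ⟨ha, _⟩ | ⟨ha, hb⟩
      · omega
      · exact ha
      · rcases hb with hb | ⟨_, hb⟩
        · have := Nat.le_of_dvd (by norm_num) hb
          omega
        · omega
    · have := Finset.add_le_sum (f := m) (fun k _ => Nat.zero_le _) (Finset.mem_univ i)
        (Finset.mem_univ j) (Ne.symm hj)
      omega
  intro p hp hpf
  rw [hfF] at hpf hf0
  obtain ⟨i, _, hi⟩ := (Prime.dvd_finsetProd_iff hp.prime F).1 hpf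
  have hF : F i ≠ 0 := Finset.prod_ne_zero_iff.1 hf0 i (Finset.mem_univ i)
  exact (natDegree_le_of_dvd hi hF).trans ((hdeg i).trans (hm2 i).le)

theorem curve_ne_zero {K : Type} [Field K] [NumberField K] (g : ℕ) (f : K[X]) (Δ M : ℕ)
    (h : IsCurve g f Δ M) : f ≠ 0 := by
  rcases h with ⟨_, W, hW, hf, _, _⟩ | ⟨_, hf, _, _⟩
  · intro h0
    have := main_cubic_deg W
    rw [← hf, h0, natDegree_zero] at this
    omega
  · exact hf.1.ne_zero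

theorem dec_curve (h2 : S_FIN2) (g h D : ℕ) (hg : 1 ≤ g) (hh : 1 ≤ h) (hD : 1 ≤ D) :
    ∃ A : ℕ, 1 ≤ A ∧ ∀ (K : Type) [Field K] [NumberField K] (f : K[X]) (Δ M : ℕ),
      IsCurve h f Δ M → (∀ p : K[X], Irreducible p → p ∣ f → p.natDegree ≤ D) → Decomposes g h f →
      ∃ (f' : K[X]) (Δ' M' : ℕ), IsCurve g f' Δ' M' ∧
        M' ≤ (A ^ Module.finrank ℚ K * (discr K).natAbs * M) ^ A ∧
        Δ ≤ (A ^ Module.finrank ℚ K * (discr K).natAbs * M * Δ') ^ A ∧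
        (g = 1 → ∀ p : K[X], Irreducible p → p ∣ f' → p.natDegree ≤ D) := by
  rcases Nat.lt_or_ge 1 g with hg1 | hg1
  rcases Nat.lt_or_ge 1 h with hh1 | hh1
  · obtain ⟨A, hA1, hA⟩ := fin_dec h2 g h hg hh
    refine ⟨A, hA1, ?_⟩
    intro K _ _ f Δ M hC _ hdec
    rcases hC with ⟨h1, _⟩ | ⟨_, hf, hΔ, hM⟩
    · omega
    subst hΔ hM
    obtain ⟨f', hf', h3, h4⟩ := hA K f hf hdec
    exact ⟨f', _, _, Or.inr ⟨hg1, hf', rfl, rfl⟩, h3, h4, fun h => by omega⟩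
  all_goals
    obtain ⟨A, hA⟩ := main_all g h (min D 2) hg hh (by omega) (fun _ => by omega)
    refine ⟨A + 1, by omega, ?_⟩
    intro K _ _ f Δ M hC hdeg hdec
    have hdeg2 : ∀ p : K[X], Irreducible p → p ∣ f → p.natDegree ≤ min D 2 := fun p hp hpf =>
      le_min (hdeg p hp hpf) (dec_deg g h f (curve_ne_zero h f Δ M hC) hdec (by omega) p hp hpf)
    obtain ⟨g', f', Δ', M', hC', hM', hΔ', halt⟩ := hA K f Δ M hC hdeg2
    rcases halt with ⟨hgg, hg1'⟩ | ⟨h3, _, h4, _⟩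
    · subst hgg
      obtain ⟨c1, c2⟩ := curve_pos h f Δ M hC
      obtain ⟨c3, c4⟩ := curve_pos g' f' Δ' M' hC'
      refine ⟨f', Δ', M', hC', ?_, ?_, fun h p hp hpf => (hg1' h p hp hpf).trans (min_le_left _ _)⟩
      · calc M' ≤ A ^ Module.finrank ℚ K * (discr K).natAbs * M := hM'
          _ ≤ (A + 1) ^ Module.finrank ℚ K * (discr K).natAbs * M :=
            Nat.mul_le_mul_right _ (Nat.mul_le_mul_right _ (Nat.pow_le_pow_left (by omega) _))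
          _ ≤ _ := Nat.le_self_pow (by omega) _
      · refine hΔ'.trans ?_
        have := mrg_mono A (A + 1) (Module.finrank ℚ K) (discr K).natAbs
          (M * Δ') (by omega) (by omega) (one_le_discr K) (Nat.mul_pos c2 c3)
        rwa [← mul_assoc, ← mul_assoc] at this
    · have : min D 2 ≤ 2 := min_le_right _ _
      omega

/-! ### the theorem -/

theorem card_factors_le {K : Type} [Field K] (f : K[X]) (hf : f ≠ 0) :
    Multiset.card (UniqueFactorizationMonoid.factors f) ≤ f.natDegree := by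
  classical
  have h1 : Associated (UniqueFactorizationMonoid.factors f).prod f :=
    UniqueFactorizationMonoid.factors_prod hf
  have h2 : f.natDegree = (UniqueFactorizationMonoid.factors f).prod.natDegree :=
    (natDegree_eq_of_degree_eq (degree_eq_degree_of_associated h1)).symm
  have h0 : (0 : K[X]) ∉ UniqueFactorizationMonoid.factors f := fun h =>
    (UniqueFactorizationMonoid.irreducible_of_factor 0 h).ne_zero rfl
  rw [h2, natDegree_multiset_prod _ h0]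
  have h3 : ∀ p ∈ UniqueFactorizationMonoid.factors f, 1 ≤ p.natDegree := fun p hp =>
    (UniqueFactorizationMonoid.irreducible_of_factor p hp).natDegree_pos
  calc Multiset.card (UniqueFactorizationMonoid.factors f)
      = ((UniqueFactorizationMonoid.factors f).map fun _ => 1).sum := by simp
    _ ≤ ((UniqueFactorizationMonoid.factors f).map natDegree).sum :=
        Multiset.sum_map_le_sum_map _ _ h3

theorem merge (h2 : S_FIN2) (g h D : ℕ) (hg : 1 ≤ g) (hh : 1 ≤ h) (hD : 1 ≤ D) :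
    ∃ A : ℕ, ∀ (K : Type) [Field K] [NumberField K] (f : K[X]) (Δ M : ℕ), IsCurve h f Δ M →
      (∀ p : K[X], Irreducible p → p ∣ f → p.natDegree ≤ D) →
      ∃ (g' : ℕ) (f' : K[X]) (Δ' M' : ℕ), IsCurve g' f' Δ' M' ∧
        M' ≤ (A ^ Module.finrank ℚ K * (discr K).natAbs * M) ^ A ∧
        Δ ≤ (A ^ Module.finrank ℚ K * (discr K).natAbs * M * Δ') ^ A ∧
        ((g' = g ∧ (g = 1 → ∀ p : K[X], Irreducible p → p ∣ f' → p.natDegree ≤ D)) ∨
          (¬ Decomposes g h f ∧ ¬ Decomposes g g' f' ∧ (g' = 1 → g = 2) ∧ g' ≤ h ∧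
            2 * g' ≤ 3 * (D - 1) ∧
            Multiset.card (UniqueFactorizationMonoid.factors f') + (2 * g' + 2 - f'.natDegree) ≤ 4 ∧
            ∀ p : K[X], Irreducible p → p ∣ f' → p.natDegree ≤ D)) := by
  classical
  -- constants for decomposable curves of genus at most `h`
  have key : ∀ h' : ℕ, ∃ A : ℕ, 1 ≤ A ∧ (1 ≤ h' → ∀ (K : Type) [Field K] [NumberField K]
      (f : K[X]) (Δ M : ℕ), IsCurve h' f Δ M →
      (∀ p : K[X], Irreducible p → p ∣ f → p.natDegree ≤ D) → Decomposes g h' f →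
      ∃ (f' : K[X]) (Δ' M' : ℕ), IsCurve g f' Δ' M' ∧
        M' ≤ (A ^ Module.finrank ℚ K * (discr K).natAbs * M) ^ A ∧
        Δ ≤ (A ^ Module.finrank ℚ K * (discr K).natAbs * M * Δ') ^ A ∧
        (g = 1 → ∀ p : K[X], Irreducible p → p ∣ f' → p.natDegree ≤ D)) := by
    intro h'
    rcases Nat.lt_or_ge 0 h' with h0 | h0
    · obtain ⟨A, hA1, hA⟩ := dec_curve h2 g h' D hg h0 hD
      exact ⟨A, hA1, fun _ => hA⟩
    · exact ⟨1, le_rfl, fun h1 => by omega⟩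
  choose Af hAf1 hAf using key
  set A₂ : ℕ := (Finset.range (h + 1)).sup Af + 1 with hA₂
  have hle : ∀ h' ≤ h, Af h' ≤ A₂ := fun h' hh' =>
    (Finset.le_sup (f := Af) (Finset.mem_range.2 (by omega))).trans (Nat.le_succ _)
  have hA₂1 : 1 ≤ A₂ := by omega
  -- part 2 with the common constant
  have part2 : ∀ h' : ℕ, 1 ≤ h' → h' ≤ h → ∀ (K : Type) [Field K] [NumberField K]
      (f : K[X]) (Δ M : ℕ), IsCurve h' f Δ M →
      (∀ p : K[X], Irreducible p → p ∣ f → p.natDegree ≤ D) → Decomposes g h' f →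
      ∃ (f' : K[X]) (Δ' M' : ℕ), IsCurve g f' Δ' M' ∧
        M' ≤ (A₂ ^ Module.finrank ℚ K * (discr K).natAbs * M) ^ A₂ ∧
        Δ ≤ (A₂ ^ Module.finrank ℚ K * (discr K).natAbs * M * Δ') ^ A₂ ∧
        (g = 1 → ∀ p : K[X], Irreducible p → p ∣ f' → p.natDegree ≤ D) := by
    intro h' h1 hh' K _ _ f Δ M hC hdeg hdec
    obtain ⟨f', Δ', M', hC', h3, h4, h5⟩ := hAf h' h1 K f Δ M hC hdeg hdec
    obtain ⟨c1, c2⟩ := curve_pos h' f Δ M hC
    obtain ⟨c3, c4⟩ := curve_pos g f' Δ' M' hC'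
    refine ⟨f', Δ', M', hC', h3.trans (mrg_mono _ _ _ _ _ (hle h' hh') hA₂1 (one_le_discr K) c2),
      h4.trans ?_, h5⟩
    have := mrg_mono (Af h') A₂ (Module.finrank ℚ K) (discr K).natAbs
      (M * Δ') (hle h' hh') hA₂1 (one_le_discr K) (Nat.mul_pos c2 c3)
    rwa [← mul_assoc, ← mul_assoc] at this
  -- part 1, for genus one instead of genus two if `D ≥ 3`
  obtain ⟨g₀, hg₀1, hg₀2, hg₀3⟩ : ∃ g₀ : ℕ, 1 ≤ g₀ ∧ (g₀ = 2 → D ≤ 2) ∧
      (g₀ = g ∨ (g₀ = 1 ∧ g = 2 ∧ 3 ≤ D)) := by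
    by_cases hc : g = 2 ∧ 3 ≤ D
    · exact ⟨1, le_rfl, fun h => by omega, Or.inr ⟨rfl, hc⟩⟩
    · exact ⟨g, hg, fun h => by omega, Or.inl rfl⟩
  obtain ⟨A₁, hA₁⟩ := main_all g₀ h D hg₀1 hh hD hg₀2
  set A₃ : ℕ := A₁ + 1 with hA₃
  set A : ℕ := A₃ * A₂ + 2 * A₂ + (2 * A₂ + 1) * A₃ with hA
  have hAA₂ : A₂ ≤ A := by omega
  have hAA₃ : A₃ ≤ A := by
    have : A₃ ≤ (2 * A₂ + 1) * A₃ := Nat.le_mul_of_pos_left _ (by omega)
    omega
  refine ⟨A, ?_⟩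
  intro K _ _ f Δ M hC hdeg
  obtain ⟨c1, c2⟩ := curve_pos h f Δ M hC
  have hd1 := one_le_discr K
  by_cases hdec : Decomposes g h f
  · obtain ⟨f', Δ', M', hC', h3, h4, h5⟩ := part2 h hh le_rfl K f Δ M hC hdeg hdec
    obtain ⟨c3, c4⟩ := curve_pos g f' Δ' M' hC'
    refine ⟨g, f', Δ', M', hC', h3.trans (mrg_mono _ _ _ _ _ hAA₂ (by omega) hd1 c2),
      h4.trans ?_, Or.inl ⟨rfl, h5⟩⟩
    have := mrg_mono A₂ A (Module.finrank ℚ K) (discr K).natAbs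
      (M * Δ') hAA₂ (by omega) hd1 (Nat.mul_pos c2 c3)
    rwa [← mul_assoc, ← mul_assoc] at this
  obtain ⟨g', f', Δ', M', hC', hM', hΔ', halt⟩ := hA₁ K f Δ M hC hdeg
  obtain ⟨c3, c4⟩ := curve_pos g' f' Δ' M' hC'
  have hM3 : M' ≤ A₃ ^ Module.finrank ℚ K * (discr K).natAbs * M :=
    hM'.trans (Nat.mul_le_mul_right _ (Nat.mul_le_mul_right _
      (Nat.pow_le_pow_left (by omega) _)))
  have hΔ3 : Δ ≤ (A₃ ^ Module.finrank ℚ K * (discr K).natAbs * M * Δ') ^ A₃ := by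
    refine hΔ'.trans ?_
    have := mrg_mono A₁ A₃ (Module.finrank ℚ K) (discr K).natAbs
      (M * Δ') (by omega) (by omega) hd1 (Nat.mul_pos c2 c3)
    rwa [← mul_assoc, ← mul_assoc] at this
  have hM4 : M' ≤ (A ^ Module.finrank ℚ K * (discr K).natAbs * M) ^ A :=
    (hM3.trans (Nat.le_self_pow (by omega) _)).trans
      (mrg_mono A₃ A _ _ _ hAA₃ (by omega) hd1 c2)
  have hΔ4 : Δ ≤ (A ^ Module.finrank ℚ K * (discr K).natAbs * M * Δ') ^ A := by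
    refine hΔ3.trans ?_
    have := mrg_mono A₃ A (Module.finrank ℚ K) (discr K).natAbs
      (M * Δ') hAA₃ (by omega) hd1 (Nat.mul_pos c2 c3)
    rwa [← mul_assoc, ← mul_assoc] at this
  -- the two ways to end
  have fin : g' ≤ h → 1 ≤ g' → (∀ p : K[X], Irreducible p → p ∣ f' → p.natDegree ≤ D) →
      (g' = 1 → g = 2) → 2 * g' ≤ 3 * (D - 1) →
      Multiset.card (UniqueFactorizationMonoid.factors f') + (2 * g' + 2 - f'.natDegree) ≤ 4 →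
      ∃ (g' : ℕ) (f' : K[X]) (Δ' M' : ℕ), IsCurve g' f' Δ' M' ∧
        M' ≤ (A ^ Module.finrank ℚ K * (discr K).natAbs * M) ^ A ∧
        Δ ≤ (A ^ Module.finrank ℚ K * (discr K).natAbs * M * Δ') ^ A ∧
        ((g' = g ∧ (g = 1 → ∀ p : K[X], Irreducible p → p ∣ f' → p.natDegree ≤ D)) ∨
          (¬ Decomposes g h f ∧ ¬ Decomposes g g' f' ∧ (g' = 1 → g = 2) ∧ g' ≤ h ∧
            2 * g' ≤ 3 * (D - 1) ∧
            Multiset.card (UniqueFactorizationMonoid.factors f') + (2 * g' + 2 - f'.natDegree) ≤ 4 ∧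
            ∀ p : K[X], Irreducible p → p ∣ f' → p.natDegree ≤ D)) := by
    intro k1 k2 k3 k4 k5 k6
    by_cases hdec' : Decomposes g g' f'
    · obtain ⟨f'', Δ'', M'', hC'', h9, h10, h11⟩ :=
        part2 g' k2 k1 K f' Δ' M' hC' k3 hdec'
      obtain ⟨c5, c6⟩ := curve_pos g f'' Δ'' M'' hC''
      obtain ⟨e1, e2⟩ := mrg_comp A₃ A₂ (Module.finrank ℚ K) (discr K).natAbs M M' M'' Δ Δ' Δ''
        (by omega) hA₂1 hd1 c2 c5 hM3 hΔ3 h9 h10
      exact ⟨g, f'', Δ'', M'', hC'', e1, e2, Or.inl ⟨rfl, h11⟩⟩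
    · exact ⟨g', f', Δ', M', hC', hM4, hΔ4, Or.inr ⟨hdec, hdec', k4, k1, k5, k6, k3⟩⟩
  rcases halt with ⟨ha1, ha2⟩ | ⟨h3, h4, h5, h6, h7, h8⟩
  · rcases hg₀3 with h9 | ⟨h9, h10, h11⟩
    · subst h9
      exact ⟨g', f', Δ', M', hC', hM4, hΔ4, Or.inl ⟨ha1, ha2⟩⟩
    · have hg'1 : g' = 1 := by omega
      refine fin (by omega) (by omega) (ha2 h9) (fun _ => h10) (by omega) ?_
      rcases hC' with ⟨_, W, hW, hfW, _, _⟩ | ⟨hg'2, _⟩
      · have hd3 : f'.natDegree = 3 := by rw [hfW]; exact main_cubic_deg W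
        have hf0 : f' ≠ 0 := by
          intro h0
          rw [h0, natDegree_zero] at hd3
          omega
        have := card_factors_le f' hf0
        omega
      · omega
  · exact fin h4 (by omega) h8 (fun h => by omega) h5 (by omega)

end Pool.Agent.Lib.MP_ca2859_nt.CC
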