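import Pool.Agent.Lib.MP_ca2859_nt.CC.Main
import Pool.Agent.Lib.MP_ca2859_nt.CC.Merge

/-!
# Fixed field theorem: parts 1 and 2 put together, general admissible blocks
-/

set_option autoImplicit false

open Polynomial WithZero IsDedekindDomain NumberField
open Pool.Agent.Lib.MP_ca2859_nt Pool.Agent.Lib.MP_ca2859_nt.GR Pool.Agent.Lib.MP_ca2859_nt.FF

namespace Pool.Agent.Lib.MP_ca2859_nt.CC

/-- the conclusion of `main_blocks` -/
def S_BLOCKS : Prop := ∀ (g h : ℕ), 1 ≤ g → 1 ≤ h → ∃ A : ℕ, ∀ (K : Type) [Field K]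
  [NumberField K] (f : K[X]), IsHyperelliptic h f → Blocks g h f →
  ∃ D : K[X], IsHyperelliptic g D ∧
    MC g D ≤ (A ^ Module.finrank ℚ K * (discr K).natAbs * MC h f) ^ A ∧
    DeltaC h f ≤ (A ^ Module.finrank ℚ K * (discr K).natAbs * MC h f * DeltaC g D) ^ A

theorem dec_curve2 (hBL : S_BLOCKS) (g h D : ℕ) (hg : 1 ≤ g) (hh : 1 ≤ h) (hD : 1 ≤ D) :
    ∃ A : ℕ, 1 ≤ A ∧ ∀ (K : Type) [Field K] [NumberField K] (f : K[X]) (Δ M : ℕ),
      IsCurve h f Δ M → (∀ p : K[X], Irreducible p → p ∣ f → p.natDegree ≤ D) → Blocks g h f →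
      ∃ (f' : K[X]) (Δ' M' : ℕ), IsCurve g f' Δ' M' ∧
        M' ≤ (A ^ Module.finrank ℚ K * (discr K).natAbs * M) ^ A ∧
        Δ ≤ (A ^ Module.finrank ℚ K * (discr K).natAbs * M * Δ') ^ A ∧
        (g = 1 → ∀ p : K[X], Irreducible p → p ∣ f' → p.natDegree ≤ D) := by
  by_cases hc1 : 2 ≤ g ∧ 2 ≤ h
  · obtain ⟨A, hA⟩ := hBL g h hg hh
    refine ⟨A + 1, by omega, ?_⟩
    intro K _ _ f Δ M hC _ hdec
    rcases hC with ⟨h1, _⟩ | ⟨_, hf, hΔ, hM⟩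
    · omega
    subst hΔ hM
    obtain ⟨f', hf', h3, h4⟩ := hA K f hf hdec
    have hC' : IsCurve g f' (DeltaC g f') (MC g f') := Or.inr ⟨hc1.1, hf', rfl, rfl⟩
    obtain ⟨c3, c4⟩ := curve_pos g f' _ _ hC'
    have hMC1 : 1 ≤ MC h f := by
      rw [MC_eq_PR]; exact GR.PR_pos _ (finite_bad h _ hf)
    exact ⟨f', _, _, hC', h3.trans (mono_B _ _ _ _ _ (by omega) (by omega) (one_le_discr K) hMC1),
      h4.trans (mono_C _ _ _ _ _ _ (by omega) (by omega) (one_le_discr K) hMC1 c3),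
      fun h => by omega⟩
  by_cases hc2 : g = 1 ∧ h = 1
  · obtain ⟨rfl, rfl⟩ := hc2
    refine ⟨1, le_rfl, fun K _ _ f Δ M hC hdeg _ => ⟨f, Δ, M, hC, ?_, ?_, fun _ => hdeg⟩⟩
    · rw [one_pow, one_mul, pow_one]
      exact Nat.le_mul_of_pos_left _ (one_le_discr K)
    · obtain ⟨c1, c2⟩ := curve_pos 1 f Δ M hC
      rw [one_pow, one_mul, pow_one]
      exact Nat.le_mul_of_pos_left _ (Nat.mul_pos (one_le_discr K) c2)
  -- the remaining cases follow from part 1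
  obtain ⟨D', hD'1, hD'2, hD'3, hD'4⟩ : ∃ D' : ℕ, 1 ≤ D' ∧ D' ≤ D ∧ (g = 2 → D' ≤ 2) ∧
      ((h = 1 ∧ D' = D) ∨ (((g = 1 ∧ 2 ≤ h) ∨ (g = 2 ∧ h = 1)) ∧ D' = min D 2)) := by
    by_cases hc3 : (g = 1 ∧ 2 ≤ h) ∨ (g = 2 ∧ h = 1)
    · exact ⟨min D 2, by omega, min_le_left _ _, fun _ => min_le_right _ _, Or.inr ⟨hc3, rfl⟩⟩
    · exact ⟨D, hD, le_rfl, fun h => by omega, Or.inl ⟨by omega, rfl⟩⟩
  obtain ⟨A, hA⟩ := main_all g h D' hg hh hD'1 hD'3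
  refine ⟨A + 1, by omega, ?_⟩
  intro K _ _ f Δ M hC hdeg hdec
  have hdeg2 : ∀ p : K[X], Irreducible p → p ∣ f → p.natDegree ≤ D' := by
    intro p hp hpf
    rcases hD'4 with ⟨-, h1⟩ | ⟨h1, h2⟩
    · rw [h1]; exact hdeg p hp hpf
    · rw [h2]; exact le_min (hdeg p hp hpf) (blocks_deg h1 f (isCurve_ne hC) hdec p hp hpf)
  obtain ⟨g', f', Δ', M', hC', hM', hΔ', halt⟩ := hA K f Δ M hC hdeg2
  rcases halt with ⟨hgg, hg1'⟩ | ⟨h3, h4, h5, _⟩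
  · subst hgg
    obtain ⟨c1, c2⟩ := curve_pos h f Δ M hC
    obtain ⟨c3, c4⟩ := curve_pos g' f' Δ' M' hC'
    exact ⟨f', Δ', M', hC', hM'.trans (mono_A _ _ _ _ _ (by omega) (by omega) (one_le_discr K) c2),
      hΔ'.trans (mono_C _ _ _ _ _ _ (by omega) (by omega) (one_le_discr K) c2 c3),
      fun h p hp hpf => (hg1' h p hp hpf).trans hD'2⟩
  · exfalso
    rcases hD'4 with ⟨h1, -⟩ | ⟨-, h1⟩
    · omega
    · have : min D 2 ≤ 2 := min_le_right _ _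
      omega

/-- The final form: `Blocks` is the existence of `g`-admissible blocks. -/
theorem merge2 (hBL : S_BLOCKS) (g h D : ℕ) (hg : 1 ≤ g) (hh : 1 ≤ h) (hD : 1 ≤ D) :
    ∃ A : ℕ, ∀ (K : Type) [Field K] [NumberField K] (f : K[X]) (Δ M : ℕ), IsCurve h f Δ M →
      (∀ p : K[X], Irreducible p → p ∣ f → p.natDegree ≤ D) →
      ∃ (g' : ℕ) (f' : K[X]) (Δ' M' : ℕ), IsCurve g' f' Δ' M' ∧
        M' ≤ (A ^ Module.finrank ℚ K * (discr K).natAbs * M) ^ A ∧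
        Δ ≤ (A ^ Module.finrank ℚ K * (discr K).natAbs * M * Δ') ^ A ∧
        ((g' = g ∧ (g = 1 → ∀ p : K[X], Irreducible p → p ∣ f' → p.natDegree ≤ D)) ∨
          (¬ Blocks g h f ∧ ¬ Blocks g g' f' ∧ (g' = 1 → g = 2) ∧ g' ≤ h ∧
            2 * g' ≤ 3 * (D - 1) ∧
            Multiset.card (UniqueFactorizationMonoid.factors f') + (2 * g' + 2 - f'.natDegree) ≤ 4 ∧
            ∀ p : K[X], Irreducible p → p ∣ f' → p.natDegree ≤ D)) := by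
  classical
  -- constants for decomposable curves of genus at most `h`
  have key : ∀ h' : ℕ, ∃ A : ℕ, 1 ≤ A ∧ (1 ≤ h' → ∀ (K : Type) [Field K] [NumberField K]
      (f : K[X]) (Δ M : ℕ), IsCurve h' f Δ M →
      (∀ p : K[X], Irreducible p → p ∣ f → p.natDegree ≤ D) → Blocks g h' f →
      ∃ (f' : K[X]) (Δ' M' : ℕ), IsCurve g f' Δ' M' ∧
        M' ≤ (A ^ Module.finrank ℚ K * (discr K).natAbs * M) ^ A ∧
        Δ ≤ (A ^ Module.finrank ℚ K * (discr K).natAbs * M * Δ') ^ A ∧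
        (g = 1 → ∀ p : K[X], Irreducible p → p ∣ f' → p.natDegree ≤ D)) := by
    intro h'
    rcases Nat.lt_or_ge 0 h' with h0 | h0
    · obtain ⟨A, hA1, hA⟩ := dec_curve2 hBL g h' D hg h0 hD
      exact ⟨A, hA1, fun _ => hA⟩
    · exact ⟨1, le_rfl, fun h1 => by omega⟩
  choose Af hAf1 hAf using key
  set A₂ : ℕ := (Finset.range (h + 1)).sup Af + 1 with hA₂
  have hle : ∀ h' ≤ h, Af h' ≤ A₂ := fun h' hh' =>
    (Finset.le_sup (f := Af) (Finset.mem_range.2 (by omega))).trans (Nat.le_succ _)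
  have hA₂1 : 1 ≤ A₂ := by omega
  -- part 2 with the common constant
  have part2 : ∀ h' : ℕ, 1 ≤ h' → h' ≤ h → ∀ (K : Type) [Field K] [NumberField K]
      (f : K[X]) (Δ M : ℕ), IsCurve h' f Δ M →
      (∀ p : K[X], Irreducible p → p ∣ f → p.natDegree ≤ D) → Blocks g h' f →
      ∃ (f' : K[X]) (Δ' M' : ℕ), IsCurve g f' Δ' M' ∧
        M' ≤ (A₂ ^ Module.finrank ℚ K * (discr K).natAbs * M) ^ A₂ ∧
        Δ ≤ (A₂ ^ Module.finrank ℚ K * (discr K).natAbs * M * Δ') ^ A₂ ∧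
        (g = 1 → ∀ p : K[X], Irreducible p → p ∣ f' → p.natDegree ≤ D) := by
    intro h' h1 hh' K _ _ f Δ M hC hdeg hdec
    obtain ⟨f', Δ', M', hC', h3, h4, h5⟩ := hAf h' h1 K f Δ M hC hdeg hdec
    obtain ⟨c1, c2⟩ := curve_pos h' f Δ M hC
    obtain ⟨c3, c4⟩ := curve_pos g f' Δ' M' hC'
    refine ⟨f', Δ', M', hC', h3.trans (mrg_mono _ _ _ _ _ (hle h' hh') hA₂1 (one_le_discr K) c2),
      h4.trans ?_, h5⟩
    have := mrg_mono (Af h') A₂ (Module.finrank ℚ K) (discr K).natAbs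
      (M * Δ') (hle h' hh') hA₂1 (one_le_discr K) (Nat.mul_pos c2 c3)
    rwa [← mul_assoc, ← mul_assoc] at this
  -- part 1, for genus one instead of genus two if `D ≥ 3`
  obtain ⟨g₀, hg₀1, hg₀2, hg₀3⟩ : ∃ g₀ : ℕ, 1 ≤ g₀ ∧ (g₀ = 2 → D ≤ 2) ∧
      (g₀ = g ∨ (g₀ = 1 ∧ g = 2 ∧ 3 ≤ D)) := by
    by_cases hc : g = 2 ∧ 3 ≤ D
    · exact ⟨1, le_rfl, fun h => by omega, Or.inr ⟨rfl, hc⟩⟩
    · exact ⟨g, hg, fun h => by omega, Or.inl rfl⟩
  obtain ⟨A₁, hA₁⟩ := main_all g₀ h D hg₀1 hh hD hg₀2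
  set A₃ : ℕ := A₁ + 1 with hA₃
  set A : ℕ := A₃ * A₂ + 2 * A₂ + (2 * A₂ + 1) * A₃ with hA
  have hAA₂ : A₂ ≤ A := by omega
  have hAA₃ : A₃ ≤ A := by
    have : A₃ ≤ (2 * A₂ + 1) * A₃ := Nat.le_mul_of_pos_left _ (by omega)
    omega
  refine ⟨A, ?_⟩
  intro K _ _ f Δ M hC hdeg
  obtain ⟨c1, c2⟩ := curve_pos h f Δ M hC
  have hd1 := one_le_discr K
  by_cases hdec : Blocks g h f
  · obtain ⟨f', Δ', M', hC', h3, h4, h5⟩ := part2 h hh le_rfl K f Δ M hC hdeg hdec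
    obtain ⟨c3, c4⟩ := curve_pos g f' Δ' M' hC'
    refine ⟨g, f', Δ', M', hC', h3.trans (mrg_mono _ _ _ _ _ hAA₂ (by omega) hd1 c2),
      h4.trans ?_, Or.inl ⟨rfl, h5⟩⟩
    have := mrg_mono A₂ A (Module.finrank ℚ K) (discr K).natAbs
      (M * Δ') hAA₂ (by omega) hd1 (Nat.mul_pos c2 c3)
    rwa [← mul_assoc, ← mul_assoc] at this
  obtain ⟨g', f', Δ', M', hC', hM', hΔ', halt⟩ := hA₁ K f Δ M hC hdeg
  obtain ⟨c3, c4⟩ := curve_pos g' f' Δ' M' hC'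
  have hM3 : M' ≤ A₃ ^ Module.finrank ℚ K * (discr K).natAbs * M :=
    hM'.trans (Nat.mul_le_mul_right _ (Nat.mul_le_mul_right _
      (Nat.pow_le_pow_left (by omega) _)))
  have hΔ3 : Δ ≤ (A₃ ^ Module.finrank ℚ K * (discr K).natAbs * M * Δ') ^ A₃ := by
    refine hΔ'.trans ?_
    have := mrg_mono A₁ A₃ (Module.finrank ℚ K) (discr K).natAbs
      (M * Δ') (by omega) (by omega) hd1 (Nat.mul_pos c2 c3)
    rwa [← mul_assoc, ← mul_assoc] at this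
  have hM4 : M' ≤ (A ^ Module.finrank ℚ K * (discr K).natAbs * M) ^ A :=
    (hM3.trans (Nat.le_self_pow (by omega) _)).trans
      (mrg_mono A₃ A _ _ _ hAA₃ (by omega) hd1 c2)
  have hΔ4 : Δ ≤ (A ^ Module.finrank ℚ K * (discr K).natAbs * M * Δ') ^ A := by
    refine hΔ3.trans ?_
    have := mrg_mono A₃ A (Module.finrank ℚ K) (discr K).natAbs
      (M * Δ') hAA₃ (by omega) hd1 (Nat.mul_pos c2 c3)
    rwa [← mul_assoc, ← mul_assoc] at this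
  -- the two ways to end
  have fin : g' ≤ h → 1 ≤ g' → (∀ p : K[X], Irreducible p → p ∣ f' → p.natDegree ≤ D) →
      (g' = 1 → g = 2) → 2 * g' ≤ 3 * (D - 1) →
      Multiset.card (UniqueFactorizationMonoid.factors f') + (2 * g' + 2 - f'.natDegree) ≤ 4 →
      ∃ (g' : ℕ) (f' : K[X]) (Δ' M' : ℕ), IsCurve g' f' Δ' M' ∧
        M' ≤ (A ^ Module.finrank ℚ K * (discr K).natAbs * M) ^ A ∧
        Δ ≤ (A ^ Module.finrank ℚ K * (discr K).natAbs * M * Δ') ^ A ∧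
        ((g' = g ∧ (g = 1 → ∀ p : K[X], Irreducible p → p ∣ f' → p.natDegree ≤ D)) ∨
          (¬ Blocks g h f ∧ ¬ Blocks g g' f' ∧ (g' = 1 → g = 2) ∧ g' ≤ h ∧
            2 * g' ≤ 3 * (D - 1) ∧
            Multiset.card (UniqueFactorizationMonoid.factors f') + (2 * g' + 2 - f'.natDegree) ≤ 4 ∧
            ∀ p : K[X], Irreducible p → p ∣ f' → p.natDegree ≤ D)) := by
    intro k1 k2 k3 k4 k5 k6
    by_cases hdec' : Blocks g g' f'
    · obtain ⟨f'', Δ'', M'', hC'', h9, h10, h11⟩ :=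
        part2 g' k2 k1 K f' Δ' M' hC' k3 hdec'
      obtain ⟨c5, c6⟩ := curve_pos g f'' Δ'' M'' hC''
      obtain ⟨e1, e2⟩ := mrg_comp A₃ A₂ (Module.finrank ℚ K) (discr K).natAbs M M' M'' Δ Δ' Δ''
        (by omega) hA₂1 hd1 c2 c5 hM3 hΔ3 h9 h10
      exact ⟨g, f'', Δ'', M'', hC'', e1, e2, Or.inl ⟨rfl, h11⟩⟩
    · exact ⟨g', f', Δ', M', hC', hM4, hΔ4, Or.inr ⟨hdec, hdec', k4, k1, k5, k6, k3⟩⟩
  rcases halt with ⟨ha1, ha2⟩ | ⟨h3, h4, h5, h6, h7, h8⟩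
  · rcases hg₀3 with h9 | ⟨h9, h10, h11⟩
    · subst h9
      exact ⟨g', f', Δ', M', hC', hM4, hΔ4, Or.inl ⟨ha1, ha2⟩⟩
    · have hg'1 : g' = 1 := by omega
      refine fin (by omega) (by omega) (ha2 h9) (fun _ => h10) (by omega) ?_
      rcases hC' with ⟨_, W, hW, hfW, _, _⟩ | ⟨hg'2, _⟩
      · have hd3 : f'.natDegree = 3 := by rw [hfW]; exact main_cubic_deg W
        have hf0 : f' ≠ 0 := by
          intro h0
          rw [h0, natDegree_zero] at hd3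
          omega
        have := card_factors_le f' hf0
        omega
      · omega
  · exact fin h4 (by omega) h8 (fun h => by omega) h5 (by omega)

end Pool.Agent.Lib.MP_ca2859_nt.CC
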